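import Pool.Agent.Y344.KD.Pert
import Pool.Agent.Y344.KD.Win
import Pool.Agent.TH124.KE.Chain

/-! The number of pairs of points whose line has a number of points below in a given set. -/

set_option autoImplicit false

namespace Pool.Agent.V11162.DH

open Finset Pool.Agent.TH124.KE

variable {Q : Finset (ℝ × ℝ)}

open scoped Classical in
/-- the pairs of points whose line has a number of points below that is in `W` -/
noncomputable def ew (Q : Finset (ℝ × ℝ)) (W : Finset ℕ) : Finset Seg :=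
  (Q ×ˢ Q).filter (fun e => e.1.1 < e.2.1 ∧ bel Q (sl e.1 e.2) e.1 ∈ W)

open Pool.Agent.H189R2.Lev (ht cr) in
open Pool.Agent.H189R2.Iid (T mem_T lev low) in
open Pool.Agent.Y344.KD (EW window exists_GP) in
open Pool.Agent.Results.MP_a08d0a_co.SmoothedLevel (Simple) in
theorem ew_le (hQ : GP Q) (W : Finset ℕ) {K : ℕ} (hW : ∀ k ∈ W, k ≤ K) :
    (#(ew Q W) : ℝ) ≤ 18 * #Q * (((K : ℝ) + 1) ^ (1 / 3 : ℝ) * (#W : ℝ) ^ (2 / 3 : ℝ)) := by
  classical
  set n := #Q with hn
  let φ : Q ≃ Fin n := Q.equivFin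
  set pt : Fin n → ℝ × ℝ := fun l => (φ.symm l : ℝ × ℝ) with hpt
  have hptQ : ∀ l, pt l ∈ Q := fun l => (φ.symm l).2
  have hinj : Function.Injective pt := by
    intro i j h
    exact φ.symm.injective (Subtype.ext h)
  have hsurj : ∀ p ∈ Q, ∃ l, pt l = p := by
    intro p hp
    exact ⟨φ ⟨p, hp⟩, by simp [hpt]⟩
  set a : Fin n → ℝ := fun l => (pt l).1 with ha
  set B : Fin n → ℝ := fun l => (pt l).2 with hB
  have hainj : Function.Injective a := fun i j h => hinj (hQ.inj _ (hptQ i) _ (hptQ j) h)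
  have hht : ∀ l σ, ht a B l (-σ) = hh σ (pt l) := by
    intro l σ
    unfold ht hh
    simp only [ha, hB]
    ring
  have hcr : ∀ i j, cr a B i j = - sl (pt i) (pt j) := by
    intro i j
    unfold cr sl
    rw [← div_neg, neg_sub]
  have hS : Simple a B := by
    refine ⟨fun i j hij h => absurd (hainj h) hij, ?_⟩
    rintro i j l hij hil hjl ⟨x, h1, h2⟩
    have hx : x = - -x := (neg_neg x).symm
    rw [hx, hht, hht] at h1 h2
    have e1 := (hh_eq (hQ.ne1 (hptQ i) (hptQ j) (hinj.ne hij)) (-x)).mp h1.symm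
    have e2 := (hh_eq (hQ.ne1 (hptQ i) (hptQ l) (hinj.ne hil)) (-x)).mp h2.symm
    exact hQ.col _ (hptQ i) _ (hptQ j) _ (hptQ l) (hinj.ne hij) (hinj.ne hil) (hinj.ne hjl)
      (e1.trans e2.symm)
  obtain ⟨P, hP, hP'⟩ := exists_GP hS
  refine le_trans ?_ (window hP W hW)
  rw [Nat.cast_le]
  -- the map from the pairs of indices to the pairs of points
  refine card_le_card_of_surjOn (fun z : Fin n × Fin n => ((pt z.2, pt z.1) : Seg)) ?_
  rintro ⟨p, q⟩ he
  unfold ew at he
  rw [mem_coe, mem_filter, mem_product] at he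
  obtain ⟨⟨hp, hq⟩, hpq, hw⟩ := he
  simp only at hp hq hpq hw
  obtain ⟨j, rfl⟩ := hsurj p hp
  obtain ⟨i, rfl⟩ := hsurj q hq
  obtain ⟨h1, h2⟩ := hP' i j hpq
  refine ⟨(i, j), ?_, rfl⟩
  unfold EW
  rw [mem_coe, mem_filter, mem_T]
  refine ⟨h1, ?_⟩
  have hlev : lev P (i, j) = bel Q (sl (pt j) (pt i)) (pt j) := by
    unfold lev bel
    have e : univ.filter (fun l => P l ∈ low (P i) (P j)) =
        univ.filter (fun l => hh (sl (pt j) (pt i)) (pt l) < hh (sl (pt j) (pt i)) (pt j)) := by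
      ext l
      rw [mem_filter, mem_filter, h2 l, hcr, hht, hht, sl_comm (pt i) (pt j)]
      have e3 : hh (sl (pt j) (pt i)) (pt i) = hh (sl (pt j) (pt i)) (pt j) :=
        hh_sl hpq.ne
      rw [e3]
    change (univ.filter (fun l => P l ∈ low (P i) (P j))).card = _
    rw [e]
    have e4 : Q = univ.image pt := by
      ext p
      rw [mem_image]
      constructor
      · intro hp
        obtain ⟨l, hl⟩ := hsurj p hp
        exact ⟨l, mem_univ _, hl⟩
      · rintro ⟨l, -, rfl⟩
        exact hptQ l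
    conv_rhs => rw [e4]
    rw [filter_image, card_image_of_injective _ hinj]
  rw [hlev]
  exact hw

end Pool.Agent.V11162.DH
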