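import Pool.Agent.V11162.DH.Avg

/-! Averaging over the sets of deleted points, several levels near the halving level. -/

set_option autoImplicit false

namespace Pool.Agent.V11162.DH

open Finset Pool.Agent.TH124.KE

variable {Q : Finset (ℝ × ℝ)}

open scoped Classical in
/-- the pairs of points whose line has exactly `k` points of `Q \ D` below -/
noncomputable def cc (Q D : Finset (ℝ × ℝ)) (k : ℕ) : Finset Seg :=
  (Q ×ˢ Q).filter (fun e => e.1.1 < e.2.1 ∧ bel (Q \ D) (sl e.1 e.2) e.1 = k)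

section

variable {G : Fin 4 → Finset (ℝ × ℝ)} {m : ℕ}

/-- for a suitable set of deleted points few pairs have half of the remaining points below -/
theorem exists_D2 (hG1 : ∀ i, G i ⊆ Q) (hG2 : ∀ i j, i ≠ j → Disjoint (G i) (G j))
    (hG4 : ∀ p q : ℝ × ℝ, p.1 < q.1 → ∃ i, (∀ r ∈ G i, hh (sl p q) r < hh (sl p q) p) ∨
      (∀ r ∈ G i, hh (sl p q) p < hh (sl p q) r)) (hm : 1 ≤ m) (hg : ∀ i, 2 * m ≤ #(G i) + 1)
    (C : Finset ℕ) {c0 : ℕ} (hC : ∀ c ∈ C, c ≤ c0) :
    ∃ D ⊆ Q, #D + 7 ≤ 8 * m ∧ Even #(Q \ D) ∧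
      m * ∑ c ∈ C, #(cc Q D (#(Q \ D) / 2 - 1 + c)) ≤
        #C * #(ew Q (Icc (#Q / 2 - 4 * m) (#Q / 2 + 4 * m + c0))) := by
  classical
  -- the nested sets
  have hA : ∀ (i : Fin 4) (t : ℕ), ∃ A : Finset (ℝ × ℝ), A ⊆ G i ∧ (t ≤ #(G i) → #A = t) := by
    intro i t
    by_cases h : t ≤ #(G i)
    · obtain ⟨A, hA, hA'⟩ := exists_subset_card_eq h
      exact ⟨A, hA, fun _ => hA'⟩
    · exact ⟨∅, empty_subset _, fun h' => absurd h' h⟩
  choose A hA1 hA2 using hA
  have htt : ∀ (u : Fin 4 → Fin m) i, tt Q u i ≤ #(G i) := by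
    intro u i
    have h1 := (u i).2
    have h2 := hg i
    unfold tt
    split_ifs
    · have := Nat.mod_lt #Q (by norm_num : 0 < 2)
      omega
    · omega
  have hcA : ∀ (u : Fin 4 → Fin m) i, #(A i (tt Q u i)) = tt Q u i := fun u i =>
    hA2 i _ (htt u i)
  have hdis : ∀ (u : Fin 4 → Fin m), ∀ i ∈ (univ : Finset (Fin 4)), ∀ j ∈ (univ : Finset (Fin 4)),
      i ≠ j → Disjoint (A i (tt Q u i)) (A j (tt Q u j)) := fun u i _ j _ hij =>
    disjoint_of_subset_left (hA1 _ _) (disjoint_of_subset_right (hA1 _ _) (hG2 i j hij))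
  have hDQ : ∀ u : Fin 4 → Fin m, DD A Q u ⊆ Q := by
    intro u
    unfold DD
    rw [biUnion_subset]
    exact fun i _ => (hA1 _ _).trans (hG1 i)
  have hcD : ∀ u : Fin 4 → Fin m, #(DD A Q u) = 2 * ∑ i, (u i : ℕ) + #Q % 2 := by
    intro u
    unfold DD
    rw [card_biUnion (hdis u), sum_congr rfl (fun i _ => hcA u i)]
    unfold tt
    rw [sum_add_distrib, ← mul_sum, sum_ite_eq' univ (0 : Fin 4) (fun _ => #Q % 2),
      if_pos (mem_univ _)]
  -- the counts
  have hsum : ∀ u : Fin 4 → Fin m, ∑ i, (u i : ℕ) + 4 ≤ 4 * m := by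
    intro u
    rw [Fin.sum_univ_four]
    have h0 := (u 0).2
    have h1 := (u 1).2
    have h2 := (u 2).2
    have h3 := (u 3).2
    omega
  have hQbig : 8 * m ≤ #Q + 4 := by
    have h1 : #((univ : Finset (Fin 4)).biUnion G) ≤ #Q := card_le_card (by
      rw [biUnion_subset]; exact fun i _ => hG1 i)
    rw [card_biUnion (fun i _ j _ hij => hG2 i j hij), Fin.sum_univ_four] at h1
    have h2 := hg 0
    have h3 := hg 1
    have h4 := hg 2
    have h5 := hg 3
    omega
  set N := #Q / 2 with hN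
  have hcQD : ∀ u : Fin 4 → Fin m, #(Q \ DD A Q u) = 2 * (N - ∑ i, (u i : ℕ)) := by
    intro u
    rw [card_sdiff_of_subset (hDQ u), hcD u]
    have := hsum u
    omega
  have hM : ∀ u : Fin 4 → Fin m, #(Q \ DD A Q u) / 2 - 1 + ∑ i, (u i : ℕ) + 1 = N := by
    intro u
    rw [hcQD u]
    have := hsum u
    omega
  -- the window
  set W := Icc (N - 4 * m) (N + 4 * m + c0) with hW
  have hkes : ∀ c ∈ C, ∀ u : Fin 4 → Fin m,
      cc Q (DD A Q u) (#(Q \ DD A Q u) / 2 - 1 + c) ⊆ ew Q W := by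
    intro c hc u e he
    unfold cc at he
    rw [mem_filter, mem_product] at he
    obtain ⟨⟨h1, h2⟩, h3, h4⟩ := he
    unfold ew
    rw [mem_filter, mem_product]
    refine ⟨⟨h1, h2⟩, h3, ?_⟩
    have h5 := bel_sdiff (hDQ u) (sl e.1 e.2) e.1
    rw [h4] at h5
    have h6 : #{r ∈ DD A Q u | hh (sl e.1 e.2) r < hh (sl e.1 e.2) e.1} ≤ #(DD A Q u) :=
      card_filter_le _ _
    rw [hcD u] at h6
    have h7 := hM u
    have h8 := hsum u
    have h9 := Nat.mod_lt #Q (by norm_num : 0 < 2)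
    have h10 := hC c hc
    rw [hW, mem_Icc]
    constructor <;> omega
  -- every pair is counted at most `m ^ 3` times
  have hcount : ∀ c ∈ C, ∀ e ∈ ew Q W, #{u : Fin 4 → Fin m |
      e ∈ cc Q (DD A Q u) (#(Q \ DD A Q u) / 2 - 1 + c)} ≤ m ^ 3 := by
    intro c hc e he
    unfold ew at he
    rw [mem_filter] at he
    obtain ⟨i, hi⟩ := hG4 e.1 e.2 he.2.1
    have hcard : Fintype.card ({j : Fin 4 // j ≠ i} → Fin m) = m ^ 3 := by
      rw [Fintype.card_fun, Fintype.card_fin]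
      congr 1
      fin_cases i <;> rfl
    rw [← hcard, ← card_univ]
    refine card_le_card_of_injOn (fun u (j : {j : Fin 4 // j ≠ i}) => u j) (fun _ _ => mem_univ _) ?_
    intro u hu u' hu' heq
    rw [mem_coe, mem_filter] at hu hu'
    have hoff : ∀ j, j ≠ i → u j = u' j := fun j hj => congrFun heq ⟨j, hj⟩
    have hb : ∀ u : Fin 4 → Fin m, e ∈ cc Q (DD A Q u) (#(Q \ DD A Q u) / 2 - 1 + c) →
        #(Q \ DD A Q u) / 2 - 1 + c + ∑ j, #{r ∈ A j (tt Q u j) |
          hh (sl e.1 e.2) r < hh (sl e.1 e.2) e.1} = bel Q (sl e.1 e.2) e.1 := by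
      intro u hu
      unfold cc at hu
      rw [mem_filter] at hu
      rw [← bel_sdiff (hDQ u) (sl e.1 e.2) e.1, hu.2.2]
      congr 1
      unfold DD
      rw [filter_biUnion, card_biUnion]
      intro j hj j' hj' hjj
      exact disjoint_of_subset_left (filter_subset _ _)
        (disjoint_of_subset_right (filter_subset _ _) (hdis u j hj j' hj' hjj))
    have e1 := hb u hu.2
    have e2 := hb u' hu'.2
    have e3 := hM u
    have e4 := hM u'
    rw [← add_sum_erase univ _ (mem_univ i)] at e1 e2 e3 e4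
    have e5 : ∑ j ∈ univ.erase i, #{r ∈ A j (tt Q u j) |
          hh (sl e.1 e.2) r < hh (sl e.1 e.2) e.1} = ∑ j ∈ univ.erase i, #{r ∈ A j (tt Q u' j) |
          hh (sl e.1 e.2) r < hh (sl e.1 e.2) e.1} := by
      apply sum_congr rfl
      intro j hj
      have : tt Q u j = tt Q u' j := by
        unfold tt
        rw [hoff j (ne_of_mem_erase hj)]
      rw [this]
    have e6 : ∑ j ∈ univ.erase i, (u j : ℕ) = ∑ j ∈ univ.erase i, (u' j : ℕ) := by
      apply sum_congr rfl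
      intro j hj
      rw [hoff j (ne_of_mem_erase hj)]
    have e7 : (u i : ℕ) = u' i := by
      rcases hi with hi | hi
      · have f : ∀ u : Fin 4 → Fin m, #{r ∈ A i (tt Q u i) |
            hh (sl e.1 e.2) r < hh (sl e.1 e.2) e.1} = tt Q u i := by
          intro u
          rw [filter_true_of_mem, hcA]
          intro r hr
          exact hi r (hA1 _ _ hr)
        rw [f u] at e1
        rw [f u'] at e2
        have g1 : tt Q u i = 2 * (u i : ℕ) + (if i = 0 then #Q % 2 else 0) := rfl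
        have g2 : tt Q u' i = 2 * (u' i : ℕ) + (if i = 0 then #Q % 2 else 0) := rfl
        omega
      · have f : ∀ u : Fin 4 → Fin m, #{r ∈ A i (tt Q u i) |
            hh (sl e.1 e.2) r < hh (sl e.1 e.2) e.1} = 0 := by
          intro u
          rw [card_eq_zero, filter_eq_empty_iff]
          intro r hr
          have := hi r (hA1 _ _ hr)
          exact not_lt.mpr this.le
        rw [f u] at e1
        rw [f u'] at e2
        omega
    funext j
    by_cases hj : j = i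
    · rw [hj]
      exact Fin.ext e7
    · exact hoff j hj
  -- double counting
  have h1 : ∀ c ∈ C, ∑ u : Fin 4 → Fin m, #(cc Q (DD A Q u) (#(Q \ DD A Q u) / 2 - 1 + c)) ≤
      m ^ 3 * #(ew Q W) := by
    intro c hc
    have h2 : ∀ u : Fin 4 → Fin m, #(cc Q (DD A Q u) (#(Q \ DD A Q u) / 2 - 1 + c)) =
        ∑ e ∈ ew Q W, if e ∈ cc Q (DD A Q u) (#(Q \ DD A Q u) / 2 - 1 + c) then 1 else 0 := by
      intro u
      rw [← card_filter]
      congr 1
      ext e
      rw [mem_filter]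
      exact ⟨fun h => ⟨hkes c hc u h, h⟩, fun h => h.2⟩
    rw [sum_congr rfl (fun u _ => h2 u), sum_comm]
    calc ∑ e ∈ ew Q W, ∑ u : Fin 4 → Fin m,
          (if e ∈ cc Q (DD A Q u) (#(Q \ DD A Q u) / 2 - 1 + c) then 1 else 0)
        ≤ ∑ _e ∈ ew Q W, m ^ 3 := by
          apply sum_le_sum
          intro e he
          rw [← card_filter]
          exact hcount c hc e he
      _ = m ^ 3 * #(ew Q W) := by rw [sum_const, smul_eq_mul, mul_comm]
  have htot : ∑ u : Fin 4 → Fin m, m * ∑ c ∈ C, #(cc Q (DD A Q u) (#(Q \ DD A Q u) / 2 - 1 + c)) ≤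
      ∑ _u : Fin 4 → Fin m, #C * #(ew Q W) := by
    rw [← mul_sum, sum_const, card_univ, Fintype.card_fun, Fintype.card_fin, Fintype.card_fin,
      smul_eq_mul, sum_comm]
    calc m * ∑ c ∈ C, ∑ u : Fin 4 → Fin m, #(cc Q (DD A Q u) (#(Q \ DD A Q u) / 2 - 1 + c))
        ≤ m * ∑ _c ∈ C, m ^ 3 * #(ew Q W) := Nat.mul_le_mul_left _ (sum_le_sum h1)
      _ = m ^ 4 * (#C * #(ew Q W)) := by
          rw [sum_const, smul_eq_mul]; ring
  have hne : (univ : Finset (Fin 4 → Fin m)).Nonempty := ⟨fun _ => ⟨0, hm⟩, mem_univ _⟩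
  obtain ⟨u, -, hu⟩ := exists_le_of_sum_le hne htot
  refine ⟨DD A Q u, hDQ u, ?_, ?_, hu⟩
  · rw [hcD u]
    have := hsum u
    have := Nat.mod_lt #Q (by norm_num : 0 < 2)
    omega
  · rw [hcQD u]
    exact even_two_mul _

end

end Pool.Agent.V11162.DH
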