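import Pool.Agent.V11162.DH.Avg
import Pool.Agent.Y429.HalvFew

/-! Point sets with few halving lines after the deletion of few points. -/

set_option autoImplicit false

namespace Pool.Agent.V11162.DH

open Finset Pool.Agent.W296.HL Pool.Agent.Y429.HalvFew
open Pool.Agent.TH124.KE (GP kes mem_kes Seg)

theorem kes_sq (Q : Finset (ℝ × ℝ)) (k : ℕ) : #(kes Q k) ≤ #Q ^ 2 := by
  classical
  unfold kes
  refine (card_filter_le _ _).trans ?_
  rw [card_product, sq]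

theorem rpow_third {x : ℝ} (hx : 0 ≤ x) : (x ^ (1 / 3 : ℝ)) ^ 3 = x := by
  rw [← Real.rpow_natCast, ← Real.rpow_mul hx]
  norm_num

/-- arithmetic of the exponents -/
theorem arith {n m d X W K : ℝ} (hn : 0 < n) (hm : 0 < m) (hd : 0 < d) (hdm : d ≤ 16 * m)
    (hW0 : 0 ≤ W) (hW : W ≤ 9 * m) (hK0 : 0 ≤ K) (hK : K ≤ n)
    (h : m * X ≤ 18 * n * (K ^ (1 / 3 : ℝ) * W ^ (2 / 3 : ℝ))) :
    X ≤ 270 * n ^ (4 / 3 : ℝ) / d ^ (1 / 3 : ℝ) := by
  set t := m ^ (1 / 3 : ℝ) with ht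
  have ht0 : 0 < t := Real.rpow_pos_of_pos hm _
  have ht3 : t ^ 3 = m := rpow_third hm.le
  set s := d ^ (1 / 3 : ℝ) with hs
  have hs0 : 0 < s := Real.rpow_pos_of_pos hd _
  have hs3 : s ^ 3 = d := rpow_third hd.le
  have hst : s ≤ 3 * t := by
    by_contra hcon
    push Not at hcon
    have : (3 * t) ^ 3 < s ^ 3 := pow_lt_pow_left₀ hcon (by positivity) (by norm_num)
    nlinarith
  have hWt : W ^ (2 / 3 : ℝ) ≤ 5 * t ^ 2 := by
    have h1 : W ^ (2 / 3 : ℝ) ≤ (9 * m) ^ (2 / 3 : ℝ) := Real.rpow_le_rpow hW0 hW (by norm_num)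
    have h2 : ((9 * m) ^ (2 / 3 : ℝ)) ^ 3 = (9 * m) ^ 2 := by
      rw [← Real.rpow_natCast, ← Real.rpow_mul (by positivity), ← Real.rpow_natCast]
      norm_num
    have h3 : (9 * m) ^ (2 / 3 : ℝ) ≤ 5 * t ^ 2 := by
      by_contra hcon
      push Not at hcon
      have h4 : (5 * t ^ 2) ^ 3 < ((9 * m) ^ (2 / 3 : ℝ)) ^ 3 :=
        pow_lt_pow_left₀ hcon (by positivity) (by norm_num)
      rw [h2] at h4
      have h5 : (5 * t ^ 2) ^ 3 = 125 * (t ^ 3) ^ 2 := by ring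
      rw [h5, ht3] at h4
      nlinarith [sq_nonneg m]
    exact h1.trans h3
  have hKn : K ^ (1 / 3 : ℝ) ≤ n ^ (1 / 3 : ℝ) := Real.rpow_le_rpow hK0 hK (by norm_num)
  have hn43 : n ^ (4 / 3 : ℝ) = n * n ^ (1 / 3 : ℝ) := by
    rw [show (4 / 3 : ℝ) = 1 + 1 / 3 by norm_num, Real.rpow_add hn, Real.rpow_one]
  have hN0 : 0 < n ^ (4 / 3 : ℝ) := Real.rpow_pos_of_pos hn _
  have h1 : m * X ≤ 90 * n ^ (4 / 3 : ℝ) * t ^ 2 := by
    calc m * X ≤ 18 * n * (K ^ (1 / 3 : ℝ) * W ^ (2 / 3 : ℝ)) := h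
      _ ≤ 18 * n * (n ^ (1 / 3 : ℝ) * (5 * t ^ 2)) := by
          apply mul_le_mul_of_nonneg_left _ (by positivity)
          exact mul_le_mul hKn hWt (by positivity) (by positivity)
      _ = _ := by rw [hn43]; ring
  have h2 : t * X ≤ 90 * n ^ (4 / 3 : ℝ) := by
    rw [← ht3] at h1
    have h3 : t ^ 2 * (t * X) ≤ t ^ 2 * (90 * n ^ (4 / 3 : ℝ)) := by linarith
    exact le_of_mul_le_mul_left h3 (by positivity)
  rw [le_div_iff₀ hs0]
  by_cases hX : 0 ≤ X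
  · calc X * s ≤ X * (3 * t) := mul_le_mul_of_nonneg_left hst hX
      _ = 3 * (t * X) := by ring
      _ ≤ 3 * (90 * n ^ (4 / 3 : ℝ)) := by linarith
      _ = _ := by ring
  · push Not at hX
    have : X * s ≤ 0 := by nlinarith
    linarith [mul_pos (by norm_num : (0:ℝ) < 270) hN0]

open scoped Classical in
theorem main {P : Finset (ℝ × ℝ)} (hP : GeneralPosition P) {d : ℕ} (hd : 1 ≤ d) (hdn : d ≤ #P) :
    ∃ D ⊆ P, #D ≤ d ∧ Even #(P \ D) ∧ ({L | IsBisector (P \ D) L}.ncard : ℝ) ≤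
      270 * (#P : ℝ) ^ (4 / 3 : ℝ) / (d : ℝ) ^ (1 / 3 : ℝ) := by
  obtain ⟨ε, hε⟩ := exists_shear P
  have hεs : ∀ D : Finset (ℝ × ℝ), ∀ x ∈ P \ D, ∀ y ∈ P \ D,
      (shr ε x).1 = (shr ε y).1 → x = y := fun D x hx y hy =>
    hε x (mem_sdiff.mp hx).1 y (mem_sdiff.mp hy).1
  have hn0 : (0 : ℝ) < #P := by
    have : 0 < #P := by omega
    exact_mod_cast this
  have hd0 : (0 : ℝ) < d := by exact_mod_cast hd
  by_cases hn : #P < 35
  · obtain ⟨D, hD, hD'⟩ := exists_subset_card_eq (Nat.mod_le #P 2)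
    have h1 : #(P \ D) = #P - #P % 2 := by rw [card_sdiff_of_subset hD, hD']
    refine ⟨D, hD, ?_, ?_, ?_⟩
    · have := Nat.mod_lt #P (by norm_num : 0 < 2)
      omega
    · rw [h1, Nat.even_iff]
      omega
    · have h2 := bis_le (hεs D)
      have h3 := kes_sq ((P \ D).image (shr ε)) (#(P \ D) / 2 - 1)
      rw [card_image_of_injective _ (shr_inj ε)] at h3
      have h4 : #(P \ D) ≤ #P := card_le_card sdiff_subset
      have h5 : ({L | IsBisector (P \ D) L}.ncard : ℝ) ≤ (#P : ℝ) ^ 2 := by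
        have : {L | IsBisector (P \ D) L}.ncard ≤ #P ^ 2 :=
          h2.trans (h3.trans (Nat.pow_le_pow_left h4 2))
        exact_mod_cast this
      have h6 : (#P : ℝ) ≤ 34 := by
        have : #P ≤ 34 := by omega
        exact_mod_cast this
      have h7 : (d : ℝ) ^ (1 / 3 : ℝ) ≤ (#P : ℝ) ^ (1 / 3 : ℝ) := by
        apply Real.rpow_le_rpow (by positivity) _ (by norm_num)
        exact_mod_cast hdn
      have h8 : (#P : ℝ) ^ (4 / 3 : ℝ) = #P * (#P : ℝ) ^ (1 / 3 : ℝ) := by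
        rw [show (4 / 3 : ℝ) = 1 + 1 / 3 by norm_num, Real.rpow_add hn0, Real.rpow_one]
      have h9 : 0 < (d : ℝ) ^ (1 / 3 : ℝ) := Real.rpow_pos_of_pos hd0 _
      rw [le_div_iff₀ h9, h8]
      calc ({L | IsBisector (P \ D) L}.ncard : ℝ) * (d : ℝ) ^ (1 / 3 : ℝ)
          ≤ (#P : ℝ) ^ 2 * (#P : ℝ) ^ (1 / 3 : ℝ) := mul_le_mul h5 h7 h9.le (by positivity)
        _ = #P * ((#P : ℝ) * (#P : ℝ) ^ (1 / 3 : ℝ)) := by ring
        _ ≤ 270 * ((#P : ℝ) * (#P : ℝ) ^ (1 / 3 : ℝ)) :=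
            mul_le_mul_of_nonneg_right (by linarith) (by positivity)
  · push Not at hn
    set Q := P.image (shr ε) with hQdef
    have hQ : GP Q := gp_shear (gen_of_gp hP) hε
    have hcQ : #Q = #P := card_image_of_injective _ (shr_inj ε)
    obtain ⟨G, hG1, hG2, hG3, hG4⟩ := exists_groups hQ (by omega)
    set m := (d + 15) / 16 with hm
    have hm1 : 1 ≤ m := by omega
    have hdm : d ≤ 16 * m := by omega
    obtain ⟨D', hD'Q, hD'c, hD'e, hD'k⟩ := exists_D hG1 hG2 hG4 hm1 (by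
      intro i
      have := hG3 i
      omega)
    set D := P.filter (fun x => shr ε x ∈ D') with hD
    have himD : D.image (shr ε) = D' := by
      ext y
      rw [mem_image]
      constructor
      · rintro ⟨x, hx, rfl⟩
        exact (mem_filter.mp hx).2
      · intro hy
        obtain ⟨x, hx, rfl⟩ := mem_image.mp (hD'Q hy)
        exact ⟨x, mem_filter.mpr ⟨hx, hy⟩, rfl⟩
    have hcD : #D = #D' := by rw [← himD, card_image_of_injective _ (shr_inj ε)]
    have himPD : (P \ D).image (shr ε) = Q \ D' := by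
      rw [image_sdiff _ _ (shr_inj ε), himD]
    have hcPD : #(P \ D) = #(Q \ D') := by rw [← himPD, card_image_of_injective _ (shr_inj ε)]
    refine ⟨D, filter_subset _ _, by omega, by rw [hcPD]; exact hD'e, ?_⟩
    have h1 := bis_le (hεs D)
    rw [himPD, hcPD] at h1
    set W := Icc (#Q / 2 - 4 * m) (#Q / 2 + 4 * m) with hW
    have h2 := ew_le hQ W (K := #Q / 2 + 4 * m) (fun k hk => (mem_Icc.mp hk).2)
    have h3 : ((m * #(kes (Q \ D') (#(Q \ D') / 2 - 1)) : ℕ) : ℝ) ≤ #(ew Q W) := by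
      exact_mod_cast hD'k
    have hWc : #W ≤ 9 * m := by
      rw [hW, Nat.card_Icc]
      omega
    have h4 : (m : ℝ) * (#(kes (Q \ D') (#(Q \ D') / 2 - 1)) : ℝ) ≤
        18 * (#P : ℝ) * ((((#Q / 2 + 4 * m : ℕ) : ℝ) + 1) ^ (1 / 3 : ℝ) *
          (#W : ℝ) ^ (2 / 3 : ℝ)) := by
      rw [← hcQ]
      refine le_trans ?_ h2
      have : (m : ℝ) * (#(kes (Q \ D') (#(Q \ D') / 2 - 1)) : ℝ) =
        ((m * #(kes (Q \ D') (#(Q \ D') / 2 - 1)) : ℕ) : ℝ) := by push_cast; ring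
      rw [this]
      exact h3
    have hm0 : (0 : ℝ) < m := by exact_mod_cast hm1
    have h5 := arith (n := #P) (m := m) (d := d) hn0 hm0 hd0 (by exact_mod_cast hdm)
      (by positivity) (by exact_mod_cast hWc) (by positivity) (by
        have : #Q / 2 + 4 * m + 1 ≤ #P := by omega
        exact_mod_cast this) h4
    refine le_trans ?_ h5
    exact_mod_cast h1

end Pool.Agent.V11162.DH
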