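import Pool.Agent.V11162.DH.Avg2
import Pool.Agent.V11162.DH.Final
import Pool.Agent.Y344.KD.Final

/-! The halving level of a line arrangement after the deletion of few lines. -/

set_option autoImplicit false

namespace Pool.Agent.V11162.DH

open Finset
open Pool.Agent.TH124.KE (GP hh sl bel hh_sl sl_comm)
open Pool.Agent.H189R2.Lev (ht cr)
open Pool.Agent.H189R2.Iid (T mem_T lev low X2 Y2)
open Pool.Agent.Y344.KD (cnt lowSet sub psi_cnt exists_GP ke_gp sl_X2 toNat_le)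
open Pool.Agent.Results.MP_a08d0a_co.SmoothedLevel (Simple psi)

variable {n : ℕ}

theorem arith2 {n m d X W K : ℝ} (hn : 0 < n) (hm : 0 < m) (hd : 0 < d) (hdm : d ≤ 16 * m)
    (hW0 : 0 ≤ W) (hW : W ≤ 10 * m) (hK0 : 0 ≤ K) (hK : K ≤ n)
    (h : m * X ≤ 2 * (18 * n * (K ^ (1 / 3 : ℝ) * W ^ (2 / 3 : ℝ)))) :
    X ≤ 540 * n ^ (4 / 3 : ℝ) / d ^ (1 / 3 : ℝ) := by
  set t := m ^ (1 / 3 : ℝ) with ht
  have ht0 : 0 < t := Real.rpow_pos_of_pos hm _
  have ht3 : t ^ 3 = m := rpow_third hm.le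
  set s := d ^ (1 / 3 : ℝ) with hs
  have hs0 : 0 < s := Real.rpow_pos_of_pos hd _
  have hs3 : s ^ 3 = d := rpow_third hd.le
  have hst : s ≤ 3 * t := by
    by_contra hcon
    push Not at hcon
    have : (3 * t) ^ 3 < s ^ 3 := pow_lt_pow_left₀ hcon (by positivity) (by norm_num)
    nlinarith
  have hWt : W ^ (2 / 3 : ℝ) ≤ 5 * t ^ 2 := by
    have h1 : W ^ (2 / 3 : ℝ) ≤ (10 * m) ^ (2 / 3 : ℝ) := Real.rpow_le_rpow hW0 hW (by norm_num)
    have h2 : ((10 * m) ^ (2 / 3 : ℝ)) ^ 3 = (10 * m) ^ 2 := by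
      rw [← Real.rpow_natCast, ← Real.rpow_mul (by positivity), ← Real.rpow_natCast]
      norm_num
    have h3 : (10 * m) ^ (2 / 3 : ℝ) ≤ 5 * t ^ 2 := by
      by_contra hcon
      push Not at hcon
      have h4 : (5 * t ^ 2) ^ 3 < ((10 * m) ^ (2 / 3 : ℝ)) ^ 3 :=
        pow_lt_pow_left₀ hcon (by positivity) (by norm_num)
      rw [h2] at h4
      have h5 : (5 * t ^ 2) ^ 3 = 125 * (t ^ 3) ^ 2 := by ring
      rw [h5, ht3] at h4
      nlinarith [sq_nonneg m]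
    exact h1.trans h3
  have hKn : K ^ (1 / 3 : ℝ) ≤ n ^ (1 / 3 : ℝ) := Real.rpow_le_rpow hK0 hK (by norm_num)
  have hn43 : n ^ (4 / 3 : ℝ) = n * n ^ (1 / 3 : ℝ) := by
    rw [show (4 / 3 : ℝ) = 1 + 1 / 3 by norm_num, Real.rpow_add hn, Real.rpow_one]
  have hN0 : 0 < n ^ (4 / 3 : ℝ) := Real.rpow_pos_of_pos hn _
  have h1 : m * X ≤ 180 * n ^ (4 / 3 : ℝ) * t ^ 2 := by
    calc m * X ≤ 2 * (18 * n * (K ^ (1 / 3 : ℝ) * W ^ (2 / 3 : ℝ))) := h
      _ ≤ 2 * (18 * n * (n ^ (1 / 3 : ℝ) * (5 * t ^ 2))) := by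
          apply mul_le_mul_of_nonneg_left _ (by positivity)
          apply mul_le_mul_of_nonneg_left _ (by positivity)
          exact mul_le_mul hKn hWt (by positivity) (by positivity)
      _ = _ := by rw [hn43]; ring
  have h2 : t * X ≤ 180 * n ^ (4 / 3 : ℝ) := by
    rw [← ht3] at h1
    have h3 : t ^ 2 * (t * X) ≤ t ^ 2 * (180 * n ^ (4 / 3 : ℝ)) := by linarith
    exact le_of_mul_le_mul_left h3 (by positivity)
  rw [le_div_iff₀ hs0]
  by_cases hX : 0 ≤ X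
  · calc X * s ≤ X * (3 * t) := mul_le_mul_of_nonneg_left hst hX
      _ = 3 * (t * X) := by ring
      _ ≤ 3 * (180 * n ^ (4 / 3 : ℝ)) := by linarith
      _ = _ := by ring
  · push Not at hX
    have : X * s ≤ 0 := by nlinarith
    linarith [mul_pos (by norm_num : (0:ℝ) < 540) hN0]

theorem low_iff {p q r : ℝ × ℝ} (hpq : q.1 < p.1) :
    r ∈ low p q ↔ hh (sl q p) r < hh (sl q p) q := by
  have h1 : X2 p q = - sl q p := by rw [sl_comm, sl_X2, neg_neg]
  have h2 : hh (sl q p) p = hh (sl q p) q := hh_sl hpq.ne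
  rw [← h2]
  change r.1 * X2 p q + r.2 < Y2 p q ↔ _
  unfold Y2 hh
  rw [h1]
  constructor <;> intro h <;> linarith

open scoped Classical in
theorem cnt_le_cc {P : Fin n → ℝ × ℝ} (hinj : Function.Injective P) (D : Finset (ℝ × ℝ)) (k : ℕ) :
    cnt P k (univ.filter (fun l => P l ∈ D)) ≤ #(cc (univ.image P) D k) := by
  unfold cnt
  refine card_le_card_of_injOn (fun q => ((P q.2, P q.1) : (ℝ × ℝ) × (ℝ × ℝ))) ?_ ?_
  · intro q hq
    rw [mem_coe, mem_filter, mem_T] at hq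
    unfold cc
    rw [mem_coe, mem_filter, mem_product]
    refine ⟨⟨mem_image_of_mem _ (mem_univ _), mem_image_of_mem _ (mem_univ _)⟩, hq.1, ?_⟩
    rw [← hq.2]
    unfold bel
    have e : ((univ.image P) \ D).filter
        (fun r => hh (sl (P q.2) (P q.1)) r < hh (sl (P q.2) (P q.1)) (P q.2)) =
        (lowSet P q \ univ.filter (fun l => P l ∈ D)).image P := by
      ext r
      rw [mem_filter, mem_sdiff, mem_image, mem_image]
      constructor
      · rintro ⟨⟨⟨l, -, rfl⟩, h2⟩, h3⟩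
        refine ⟨l, ?_, rfl⟩
        rw [mem_sdiff]
        unfold lowSet
        rw [mem_filter, mem_filter]
        exact ⟨⟨mem_univ _, (low_iff hq.1).mpr h3⟩, fun h => h2 h.2⟩
      · rintro ⟨l, hl, rfl⟩
        rw [mem_sdiff] at hl
        unfold lowSet at hl
        rw [mem_filter, mem_filter] at hl
        exact ⟨⟨⟨l, mem_univ _, rfl⟩, fun h => hl.2 ⟨mem_univ _, h⟩⟩, (low_iff hq.1).mp hl.1.2⟩
    rw [e, card_image_of_injective _ hinj]
  · intro q hq q' hq' h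
    simp only [Prod.mk.injEq] at h
    exact Prod.ext (hinj h.2) (hinj h.1)

theorem cnt_sq (P : Fin n → ℝ × ℝ) (k : ℕ) (D : Finset (Fin n)) : cnt P k D ≤ n ^ 2 := by
  classical
  unfold cnt
  refine (card_filter_le _ _).trans ((card_le_univ _).trans ?_)
  rw [Fintype.card_prod, Fintype.card_fin, sq]

theorem main2 {a B : Fin n → ℝ} (hS : Simple a B) {d : ℕ} (hd : 1 ≤ d) (hdn : d ≤ n) :
    ∃ R : Finset (Fin n), n ≤ #R + d ∧ 0 < #R ∧ psi (sub a R) (sub B R) (#R / 2) ≠ ⊤ ∧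
      ((psi (sub a R) (sub B R) (#R / 2)).toNat : ℝ) ≤
        540 * (n : ℝ) ^ (4 / 3 : ℝ) / (d : ℝ) ^ (1 / 3 : ℝ) := by
  classical
  obtain ⟨P, hP, hP'⟩ := exists_GP hS
  have hinj : Function.Injective P := fun i j h => hP.1 i j (by rw [h])
  have hn0 : (0 : ℝ) < n := by
    have : 0 < n := by omega
    exact_mod_cast this
  have hd0 : (0 : ℝ) < d := by exact_mod_cast hd
  by_cases hn : n < 35
  · have hcu : #((∅ : Finset (Fin n))ᶜ) = n := by simp
    have hc := psi_cnt hS hP' ∅ (k := n / 2) (by rw [hcu]; omega)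
    have h1 : (cnt P (n / 2) ∅ + (if n / 2 = 0 then 0 else cnt P (n / 2 - 1) ∅) : ℕ) ≤
        2 * n ^ 2 := by
      have h2 := cnt_sq P (n / 2) ∅
      have h3 := cnt_sq P (n / 2 - 1) ∅
      split_ifs <;> omega
    obtain ⟨h4, h5⟩ := toNat_le hc
    have hcu2 : #((∅ : Finset (Fin n))ᶜ) / 2 = n / 2 := by rw [hcu]
    refine ⟨(∅ : Finset (Fin n))ᶜ, by omega, by omega, ?_, ?_⟩
    · rw [hcu2]; exact h4
    · rw [hcu2]
      have h6 : ((psi (sub a (∅ : Finset (Fin n))ᶜ) (sub B (∅ : Finset (Fin n))ᶜ)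
          (n / 2)).toNat : ℝ) ≤ 2 * (n : ℝ) ^ 2 := by exact_mod_cast h5.trans h1
      have h6' : (n : ℝ) ≤ 34 := by
        have : n ≤ 34 := by omega
        exact_mod_cast this
      have h7 : (d : ℝ) ^ (1 / 3 : ℝ) ≤ (n : ℝ) ^ (1 / 3 : ℝ) := by
        apply Real.rpow_le_rpow (by positivity) _ (by norm_num)
        exact_mod_cast hdn
      have h8 : (n : ℝ) ^ (4 / 3 : ℝ) = n * (n : ℝ) ^ (1 / 3 : ℝ) := by
        rw [show (4 / 3 : ℝ) = 1 + 1 / 3 by norm_num, Real.rpow_add hn0, Real.rpow_one]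
      have h9 : 0 < (d : ℝ) ^ (1 / 3 : ℝ) := Real.rpow_pos_of_pos hd0 _
      rw [le_div_iff₀ h9, h8]
      calc ((psi (sub a (∅ : Finset (Fin n))ᶜ) (sub B (∅ : Finset (Fin n))ᶜ)
          (n / 2)).toNat : ℝ) * (d : ℝ) ^ (1 / 3 : ℝ)
          ≤ (2 * (n : ℝ) ^ 2) * (n : ℝ) ^ (1 / 3 : ℝ) := mul_le_mul h6 h7 h9.le (by positivity)
        _ = 2 * n * ((n : ℝ) * (n : ℝ) ^ (1 / 3 : ℝ)) := by ring
        _ ≤ 540 * ((n : ℝ) * (n : ℝ) ^ (1 / 3 : ℝ)) :=
            mul_le_mul_of_nonneg_right (by linarith) (by positivity)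
  · push Not at hn
    set Q := univ.image P with hQdef
    have hQ : GP Q := ke_gp hP
    have hcQ : #Q = n := by
      rw [hQdef, card_image_of_injective _ hinj, card_univ, Fintype.card_fin]
    obtain ⟨G, hG1, hG2, hG3, hG4⟩ := exists_groups hQ (by omega)
    set m := (d + 15) / 16 with hm
    have hm1 : 1 ≤ m := by omega
    have hdm : d ≤ 16 * m := by omega
    obtain ⟨D', hD'Q, hD'c, hD'e, hD'k⟩ := exists_D2 hG1 hG2 hG4 hm1 (by
      intro i
      have := hG3 i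
      omega) (range 2) (c0 := 1) (fun c hc => by
        have := mem_range.mp hc
        omega)
    set D : Finset (Fin n) := univ.filter (fun l => P l ∈ D') with hD
    have himD : D.image P = D' := by
      ext y
      rw [mem_image]
      constructor
      · rintro ⟨x, hx, rfl⟩
        exact (mem_filter.mp hx).2
      · intro hy
        obtain ⟨x, hx, rfl⟩ := mem_image.mp (hD'Q hy)
        exact ⟨x, mem_filter.mpr ⟨mem_univ _, hy⟩, rfl⟩
    have hcD : #D = #D' := by rw [← himD, card_image_of_injective _ hinj]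
    have hcDc : #Dᶜ = n - #D' := by rw [card_compl, Fintype.card_fin, hcD]
    have hcQD : #(Q \ D') = n - #D' := by rw [card_sdiff_of_subset hD'Q, hcQ]
    have hD'n : #D' ≤ n := hcQ ▸ card_le_card hD'Q
    obtain ⟨N', hN'⟩ := hD'e
    have hN'1 : 1 ≤ N' := by omega
    have hk : #Dᶜ / 2 < #Dᶜ := by omega
    have hc := psi_cnt hS hP' D hk
    have hk1 : #Dᶜ / 2 = N' := by omega
    have hk2 : #(Q \ D') / 2 - 1 = N' - 1 := by omega
    rw [hk1, if_neg (by omega : N' ≠ 0)] at hc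
    have h1 : cnt P N' D + cnt P (N' - 1) D ≤
        ∑ c ∈ range 2, #(cc Q D' (#(Q \ D') / 2 - 1 + c)) := by
      rw [hk2, sum_range_succ, sum_range_one]
      have e1 := cnt_le_cc hinj D' N'
      have e2 := cnt_le_cc hinj D' (N' - 1)
      have e3 : N' - 1 + 1 = N' := by omega
      rw [e3, add_zero]
      linarith
    obtain ⟨h4, h5⟩ := toNat_le hc
    refine ⟨Dᶜ, by omega, by omega, by rw [hk1]; exact h4, ?_⟩
    rw [hk1]
    set X := (psi (sub a Dᶜ) (sub B Dᶜ) N').toNat with hX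
    set W := Icc (#Q / 2 - 4 * m) (#Q / 2 + 4 * m + 1) with hW
    have h2 := ew_le hQ W (K := #Q / 2 + 4 * m + 1) (fun k hk => (mem_Icc.mp hk).2)
    have hWc : #W ≤ 10 * m := by
      rw [hW, Nat.card_Icc]
      omega
    have h3 : m * X ≤ 2 * #(ew Q W) := by
      calc m * X ≤ m * ∑ c ∈ range 2, #(cc Q D' (#(Q \ D') / 2 - 1 + c)) :=
            Nat.mul_le_mul_left _ (h5.trans h1)
        _ ≤ _ := by
            have := hD'k
            rwa [card_range] at this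
    have h6 : (m : ℝ) * (X : ℝ) ≤ 2 * (18 * (n : ℝ) * ((((#Q / 2 + 4 * m + 1 : ℕ) : ℝ) + 1) ^
        (1 / 3 : ℝ) * (#W : ℝ) ^ (2 / 3 : ℝ))) := by
      rw [← hcQ]
      have h7 : (m : ℝ) * (X : ℝ) ≤ 2 * #(ew Q W) := by exact_mod_cast h3
      refine h7.trans ?_
      have := mul_le_mul_of_nonneg_left h2 (by norm_num : (0 : ℝ) ≤ 2)
      exact this
    have hm0 : (0 : ℝ) < m := by exact_mod_cast hm1
    have h8 : (((#Q / 2 + 4 * m + 1 : ℕ) : ℝ) + 1) ≤ n := by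
      have : #Q / 2 + 4 * m + 1 + 1 ≤ n := by omega
      calc (((#Q / 2 + 4 * m + 1 : ℕ) : ℝ) + 1) = ((#Q / 2 + 4 * m + 1 + 1 : ℕ) : ℝ) := by
            rw [Nat.cast_add (#Q / 2 + 4 * m + 1) 1, Nat.cast_one]
        _ ≤ n := Nat.cast_le.mpr this
    have h9 : (#W : ℝ) ≤ 10 * m := by exact_mod_cast hWc
    have h10 : (d : ℝ) ≤ 16 * m := by exact_mod_cast hdm
    exact arith2 (n := n) (m := m) (d := d) hn0 hm0 hd0 h10
      (Nat.cast_nonneg _) h9 (by positivity) h8 h6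

end Pool.Agent.V11162.DH
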