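import Pool.Agent.V11162.DH.Final2
/-!
# The halving level after the deletion of few lines

The lines are `y = a l * x + B l`, `l : Fin n`. Definitions:

* `Simple a B`: no two of the lines coincide and no three pass through a common point (parallel
  lines are allowed); `level a B k x`: the height of the `(k+1)`-st lowest line above `x`;
  `psi a B k`: the number of abscissae near which the `k`-level does not follow a single line, i.e.
  the number of vertices of the `k`-level (`Pool/Agent/Results/MP_a08d0a_co/SmoothedLevel.lean`),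
* `sub f R`: for a set `R` of indices, the family `f` restricted to `R`, listed in increasing order
  of the indices (`Pool/Agent/Y344/KD/Lines.lean`); `sub a R`, `sub B R` are the slopes and the
  intercepts of the lines with index in `R`.
-/

set_option autoImplicit false

open Finset

namespace Pool.Agent.V11162.DH.HalvingLevelDel

open Pool.Agent.Results.MP_a08d0a_co.SmoothedLevel (Simple psi)

open Pool.Agent.Y344.KD (sub)

/-- Let `n` lines be given, no two equal and no three concurrent.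
1. For all `1 ≤ d ≤ n` one can delete at most `d` of the lines so that the halving level of the
   `n' > 0` remaining lines (their `⌊n' / 2⌋`-level) has at most `540 n ^ (4 / 3) / d ^ (1 / 3)`
   vertices.
2. For all real `δ ≤ 1` with `δ n ≥ 1` one can delete at most `δ n` of the lines so that the halving
   level of the remaining lines has at most `800 δ ^ (- 1 / 3) n` vertices. -/
theorem result : ∀ (n : ℕ) (a B : Fin n → ℝ), Simple a B →
    (∀ d : ℕ, 1 ≤ d → d ≤ n → ∃ R : Finset (Fin n), n ≤ #R + d ∧ 0 < #R ∧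
      psi (sub a R) (sub B R) (#R / 2) ≠ ⊤ ∧
      ((psi (sub a R) (sub B R) (#R / 2)).toNat : ℝ) ≤
        540 * (n : ℝ) ^ (4 / 3 : ℝ) / (d : ℝ) ^ (1 / 3 : ℝ)) ∧
    (∀ δ : ℝ, δ ≤ 1 → 1 ≤ δ * n → ∃ R : Finset (Fin n), (1 - δ) * n ≤ #R ∧ 0 < #R ∧
      psi (sub a R) (sub B R) (#R / 2) ≠ ⊤ ∧
      ((psi (sub a R) (sub B R) (#R / 2)).toNat : ℝ) ≤ 800 * δ ^ (-(1 / 3) : ℝ) * n) := by
  intro n a B hS
  refine ⟨fun d hd hdn => Pool.Agent.V11162.DH.main2 hS hd hdn, ?_⟩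
  intro δ hδ h1
  have hn0 : (0 : ℝ) < n := by
    rcases (Nat.cast_nonneg (α := ℝ) n).eq_or_lt with h | h
    · rw [← h] at h1
      linarith
    · exact h
  have hδ0 : 0 < δ := by
    by_contra hcon
    push Not at hcon
    nlinarith
  set d := ⌊δ * n⌋₊ with hd
  have hd1 : 1 ≤ d := Nat.le_floor (by exact_mod_cast h1)
  have hd2 : (d : ℝ) ≤ δ * n := Nat.floor_le (by positivity)
  have hd3 : d ≤ n := by
    have : (d : ℝ) ≤ n := by nlinarith
    exact_mod_cast this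
  have hd4 : δ * n ≤ 2 * d := by
    have h2 := Nat.lt_floor_add_one (δ * n)
    have h3 : (1 : ℝ) ≤ d := by exact_mod_cast hd1
    rw [← hd] at h2
    linarith
  obtain ⟨R, hR1, hR2, hR3, hR4⟩ := Pool.Agent.V11162.DH.main2 hS hd1 hd3
  have hR5 : (n : ℝ) ≤ #R + d := by exact_mod_cast hR1
  refine ⟨R, by linarith, hR2, hR3, hR4.trans ?_⟩
  have hd0 : (0 : ℝ) < d := by exact_mod_cast hd1
  have hs0 : 0 < (d : ℝ) ^ (1 / 3 : ℝ) := Real.rpow_pos_of_pos hd0 _
  rw [div_le_iff₀ hs0]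
  -- `(δ n / 2) ^ (1/3) ≤ d ^ (1/3)`
  have h4 : (δ * n / 2) ^ (1 / 3 : ℝ) ≤ (d : ℝ) ^ (1 / 3 : ℝ) :=
    Real.rpow_le_rpow (by positivity) (by linarith) (by norm_num)
  have h5 : (δ * n / 2 : ℝ) ^ (1 / 3 : ℝ) =
      δ ^ (1 / 3 : ℝ) * (n : ℝ) ^ (1 / 3 : ℝ) / 2 ^ (1 / 3 : ℝ) := by
    rw [Real.div_rpow (by positivity) (by norm_num), Real.mul_rpow hδ0.le hn0.le]
  have h6 : (2 : ℝ) ^ (1 / 3 : ℝ) ≤ 1.4 := by
    have h7 : ((2 : ℝ) ^ (1 / 3 : ℝ)) ^ 3 = 2 := by
      rw [← Real.rpow_natCast, ← Real.rpow_mul (by norm_num)]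
      norm_num
    by_contra hcon
    push Not at hcon
    have h8 : (1.4 : ℝ) ^ 3 < ((2 : ℝ) ^ (1 / 3 : ℝ)) ^ 3 :=
      pow_lt_pow_left₀ hcon (by norm_num) (by norm_num)
    rw [h7] at h8
    norm_num at h8
  have h2p : (0 : ℝ) < (2 : ℝ) ^ (1 / 3 : ℝ) := Real.rpow_pos_of_pos (by norm_num) _
  have h9 : δ ^ (-(1 / 3) : ℝ) * δ ^ (1 / 3 : ℝ) = 1 := by
    rw [← Real.rpow_add hδ0]
    norm_num
  have h10 : (n : ℝ) ^ (4 / 3 : ℝ) = n * (n : ℝ) ^ (1 / 3 : ℝ) := by
    rw [show (4 / 3 : ℝ) = 1 + 1 / 3 by norm_num, Real.rpow_add hn0, Real.rpow_one]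
  set α := δ ^ (-(1 / 3) : ℝ) with hα
  set β := δ ^ (1 / 3 : ℝ) with hβ
  set γ := (n : ℝ) ^ (1 / 3 : ℝ) with hγ
  have hα0 : 0 < α := Real.rpow_pos_of_pos hδ0 _
  have hγ0 : 0 < γ := Real.rpow_pos_of_pos hn0 _
  rw [h10]
  calc 540 * ((n : ℝ) * γ) = 540 * n * γ * (α * β) := by rw [h9]; ring
    _ = 540 * α * n * (2 : ℝ) ^ (1 / 3 : ℝ) * (β * γ / (2 : ℝ) ^ (1 / 3 : ℝ)) := by
        field_simp
    _ ≤ 540 * α * n * (2 : ℝ) ^ (1 / 3 : ℝ) * (d : ℝ) ^ (1 / 3 : ℝ) := by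
        apply mul_le_mul_of_nonneg_left _ (by positivity)
        rw [← h5]
        exact h4
    _ ≤ 540 * α * n * 1.4 * (d : ℝ) ^ (1 / 3 : ℝ) := by
        apply mul_le_mul_of_nonneg_right _ hs0.le
        exact mul_le_mul_of_nonneg_left h6 (by positivity)
    _ ≤ 800 * α * n * (d : ℝ) ^ (1 / 3 : ℝ) := by
        apply mul_le_mul_of_nonneg_right _ hs0.le
        nlinarith [mul_pos hα0 hn0]

end Pool.Agent.V11162.DH.HalvingLevelDel
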