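import Pool.Agent.V11162.DH.Subarr
/-!
# The halving level of most sub-arrangements

The lines are `y = a l * x + B l`, `l : Fin n`. Definitions:

* `Simple a B`: no two of the lines coincide and no three pass through a common point (parallel
  lines are allowed); `level a B k x`: the height of the `(k+1)`-st lowest line above `x`;
  `psi a B k`: the number of abscissae near which the `k`-level does not follow a single line, i.e.
  the number of vertices of the `k`-level (`Pool/Agent/Results/MP_a08d0a_co/SmoothedLevel.lean`),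
* `sub f R`: for a set `R` of indices, the family `f` restricted to `R`, listed in increasing order
  of the indices (`Pool/Agent/Y344/KD/Lines.lean`); `sub a R`, `sub B R` are the slopes and the
  intercepts of the lines with index in `R`.
-/

set_option autoImplicit false

open Finset

namespace Pool.Agent.V11162.DH.MostSubarr

open Pool.Agent.Results.MP_a08d0a_co.SmoothedLevel (Simple psi)

open Pool.Agent.Y344.KD (sub)

open scoped Classical in
/-- Let `n` lines be given, no two equal and no three concurrent.  The halving level of a nonempty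
subfamily `R` is its `⌊|R| / 2⌋`-level; it has finitely many vertices.
1. The sum over all nonempty `R` of the number of vertices of the halving level of `R` is at most
   `720 n ^ (7 / 6) 2 ^ n`, i.e. the mean over the `2 ^ n` subfamilies is at most `720 n ^ (7 / 6)`.
2. For every `t > 0`, all but a proportion `720 / t` of the `2 ^ n` subfamilies `R` have a halving
   level with at most `t n ^ (7 / 6)` vertices. -/
theorem result : ∀ (n : ℕ) (a B : Fin n → ℝ), Simple a B →
    (∀ R : Finset (Fin n), R.Nonempty → psi (sub a R) (sub B R) (#R / 2) ≠ ⊤) ∧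
    (∑ R : Finset (Fin n) with R.Nonempty, ((psi (sub a R) (sub B R) (#R / 2)).toNat : ℝ)) / 2 ^ n ≤
      720 * (n : ℝ) ^ (7 / 6 : ℝ) ∧
    ∀ t : ℝ, 0 < t → (#{R : Finset (Fin n) | R.Nonempty ∧
      t * (n : ℝ) ^ (7 / 6 : ℝ) < ((psi (sub a R) (sub B R) (#R / 2)).toNat : ℝ)} : ℝ) ≤
        720 / t * 2 ^ n := by
  intro n a B hS
  obtain ⟨hfin, h0⟩ := Pool.Agent.V11162.DH.mean_psi hS
  have h0' : ∑ R : Finset (Fin n) with R.Nonempty,
      ((psi (sub a R) (sub B R) (#R / 2)).toNat : ℝ) ≤ 720 * (n : ℝ) ^ (7 / 6 : ℝ) * 2 ^ n := by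
    convert h0
  refine ⟨hfin, ?_, ?_⟩
  · rw [div_le_iff₀ (by positivity)]
    exact h0'
  · intro t ht
    rcases Nat.eq_zero_or_pos n with hn | hn
    · subst hn
      have : #{R : Finset (Fin 0) | R.Nonempty ∧ t * ((0 : ℕ) : ℝ) ^ (7 / 6 : ℝ) <
          ((psi (sub a R) (sub B R) (#R / 2)).toNat : ℝ)} = 0 := by
        rw [card_eq_zero, filter_eq_empty_iff]
        rintro R - ⟨⟨x, -⟩, -⟩
        exact x.elim0
      rw [this, Nat.cast_zero]
      positivity
    · have hN : (0 : ℝ) < (n : ℝ) ^ (7 / 6 : ℝ) :=
        Real.rpow_pos_of_pos (by exact_mod_cast hn) _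
      set F := (univ : Finset (Finset (Fin n))).filter (fun R => R.Nonempty ∧
        t * (n : ℝ) ^ (7 / 6 : ℝ) < ((psi (sub a R) (sub B R) (#R / 2)).toNat : ℝ)) with hF
      have h1 : (#F : ℝ) * (t * (n : ℝ) ^ (7 / 6 : ℝ)) ≤
          720 * (n : ℝ) ^ (7 / 6 : ℝ) * 2 ^ n := by
        calc (#F : ℝ) * (t * (n : ℝ) ^ (7 / 6 : ℝ))
            = ∑ _S ∈ F, t * (n : ℝ) ^ (7 / 6 : ℝ) := by rw [sum_const, nsmul_eq_mul]
          _ ≤ ∑ R ∈ F, ((psi (sub a R) (sub B R) (#R / 2)).toNat : ℝ) :=
              sum_le_sum (fun S hS => (mem_filter.mp hS).2.2.le)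
          _ ≤ ∑ R : Finset (Fin n) with R.Nonempty,
              ((psi (sub a R) (sub B R) (#R / 2)).toNat : ℝ) := by
              apply sum_le_sum_of_subset_of_nonneg
              · intro R hR
                rw [hF, mem_filter] at hR
                rw [mem_filter]
                exact ⟨mem_univ _, hR.2.1⟩
              · intro _ _ _
                positivity
          _ ≤ _ := h0'
      rw [div_mul_eq_mul_div, le_div_iff₀ ht]
      have h2 : ((#F : ℝ) * t) * (n : ℝ) ^ (7 / 6 : ℝ) ≤
          (720 * 2 ^ n) * (n : ℝ) ^ (7 / 6 : ℝ) := by linarith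
      exact le_of_mul_le_mul_right h2 hN

end Pool.Agent.V11162.DH.MostSubarr
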