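import Pool.Agent.V11162.DH.Subsets
import Pool.Agent.Y429.HalvFew

/-!
# Halving lines of most subsets of a point set

Definitions (in `Pool/Agent/W296/HL3.lean`, namespace `Pool.Agent.W296.HL`):

* `Line a b c = {p | a * p.1 + b * p.2 = c}`,
* `GeneralPosition P`: no three distinct points of `P` on a common line,
* `IsBisector P L`: `L` is a line through two distinct points of `P` with exactly
  `|P| / 2 - 1` points of `P` on each open side.
-/

set_option autoImplicit false

open Finset

namespace Pool.Agent.V11162.DH.MostSubsetsPts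

open Pool.Agent.W296.HL

open Pool.Agent.Y429.HalvFew in
open Pool.Agent.TH124.KE (kes GP) in
open Pool.Agent.V11162.DH (mean_kes) in
theorem mean {P : Finset (ℝ × ℝ)} (hP : GeneralPosition P) :
    ∑ S ∈ P.powerset, ({L | IsBisector S L}.ncard : ℝ) ≤
      360 * (#P : ℝ) ^ (7 / 6 : ℝ) * 2 ^ #P := by
  classical
  obtain ⟨ε, hε⟩ := exists_shear P
  set Q := P.image (shr ε) with hQdef
  have hQ : GP Q := gp_shear (gen_of_gp hP) hε
  have hcQ : #Q = #P := card_image_of_injective _ (shr_inj ε)
  have h1 : ∀ S ∈ P.powerset, {L | IsBisector S L}.ncard ≤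
      #(kes (S.image (shr ε)) (#(S.image (shr ε)) / 2 - 1)) := by
    intro S hS
    have hSP := mem_powerset.mp hS
    rw [card_image_of_injective S (shr_inj ε)]
    exact bis_le (fun x hx y hy => hε x (hSP hx) y (hSP hy))
  have h2 : ∑ S ∈ P.powerset, #(kes (S.image (shr ε)) (#(S.image (shr ε)) / 2 - 1)) ≤
      ∑ S ∈ Q.powerset, #(kes S (#S / 2 - 1)) := by
    have hinj : Function.Injective (fun S : Finset (ℝ × ℝ) => S.image (shr ε)) :=
      image_injective (shr_inj ε)
    rw [← sum_image (s := P.powerset) (g := fun S => S.image (shr ε))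
      (f := fun S => #(kes S (#S / 2 - 1))) (fun S _ S' _ h => hinj h)]
    apply sum_le_sum_of_subset
    intro T hT
    obtain ⟨S, hS, rfl⟩ := mem_image.mp hT
    exact mem_powerset.mpr (image_subset_image (mem_powerset.mp hS))
  have h3 := mean_kes hQ
  rw [hcQ] at h3
  refine le_trans ?_ h3
  have h4 : ∑ S ∈ P.powerset, {L | IsBisector S L}.ncard ≤
      ∑ S ∈ Q.powerset, #(kes S (#S / 2 - 1)) := (sum_le_sum h1).trans h2
  exact_mod_cast h4

open scoped Classical in
/-- Let `P` be a set of `n` points of the plane in general position.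
1. The mean number of bisectors of a subset of `P`, over all the `2 ^ n` subsets, is at most
   `360 n ^ (7 / 6)`.
2. For every `t > 0`, all but a proportion `360 / t` of the subsets of `P` have at most
   `t n ^ (7 / 6)` bisectors. -/
theorem result : ∀ P : Finset (ℝ × ℝ), GeneralPosition P →
    (∑ S ∈ P.powerset, ({L | IsBisector S L}.ncard : ℝ)) / 2 ^ #P ≤
      360 * (#P : ℝ) ^ (7 / 6 : ℝ) ∧
    ∀ t : ℝ, 0 < t → (#{S ∈ P.powerset |
      t * (#P : ℝ) ^ (7 / 6 : ℝ) < ({L | IsBisector S L}.ncard : ℝ)} : ℝ) ≤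
        360 / t * 2 ^ #P := by
  intro P hP
  have h0 := mean hP
  refine ⟨?_, ?_⟩
  · rw [div_le_iff₀ (by positivity)]
    exact h0
  · intro t ht
    rcases Nat.eq_zero_or_pos #P with hn | hn
    · -- no points
      have hP0 : P = ∅ := card_eq_zero.mp hn
      have : #{S ∈ P.powerset | t * (#P : ℝ) ^ (7 / 6 : ℝ) <
          ({L | IsBisector S L}.ncard : ℝ)} = 0 := by
        rw [card_eq_zero, filter_eq_empty_iff]
        intro S hS
        have hS0 : S = ∅ := by
          rw [hP0] at hS
          exact subset_empty.mp (mem_powerset.mp hS)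
        have hb : {L | IsBisector S L} = ∅ := by
          rw [Set.eq_empty_iff_forall_notMem]
          rintro L ⟨a, b, c, -, -, ⟨p, hp, -⟩, -⟩
          rw [hS0] at hp
          exact notMem_empty _ hp
        rw [hb, Set.ncard_empty, not_lt, Nat.cast_zero]
        positivity
      rw [this, Nat.cast_zero]
      positivity
    · have hN : (0 : ℝ) < (#P : ℝ) ^ (7 / 6 : ℝ) :=
        Real.rpow_pos_of_pos (by exact_mod_cast hn) _
      set F := P.powerset.filter (fun S => t * (#P : ℝ) ^ (7 / 6 : ℝ) <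
          ({L | IsBisector S L}.ncard : ℝ)) with hF
      have h1 : (#F : ℝ) * (t * (#P : ℝ) ^ (7 / 6 : ℝ)) ≤
          360 * (#P : ℝ) ^ (7 / 6 : ℝ) * 2 ^ #P := by
        calc (#F : ℝ) * (t * (#P : ℝ) ^ (7 / 6 : ℝ))
            = ∑ _S ∈ F, t * (#P : ℝ) ^ (7 / 6 : ℝ) := by rw [sum_const, nsmul_eq_mul]
          _ ≤ ∑ S ∈ F, ({L | IsBisector S L}.ncard : ℝ) :=
              sum_le_sum (fun S hS => (mem_filter.mp hS).2.le)
          _ ≤ ∑ S ∈ P.powerset, ({L | IsBisector S L}.ncard : ℝ) :=
              sum_le_sum_of_subset_of_nonneg (filter_subset _ _) (fun _ _ _ => by positivity)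
          _ ≤ _ := h0
      rw [div_mul_eq_mul_div, le_div_iff₀ ht]
      have h2 : ((#F : ℝ) * t) * (#P : ℝ) ^ (7 / 6 : ℝ) ≤
          (360 * 2 ^ #P) * (#P : ℝ) ^ (7 / 6 : ℝ) := by linarith
      exact le_of_mul_le_mul_right h2 hN

end Pool.Agent.V11162.DH.MostSubsetsPts
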