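import Pool.Agent.TH124.KE.Base

/-! Four groups of points such that every line leaves one of the groups on one side. -/

set_option autoImplicit false

namespace Pool.Agent.V11162.DH

open Finset Pool.Agent.TH124.KE

variable {Q : Finset (ℝ × ℝ)}

/-- a continuous order statistic -/
theorem exists_stat_cont (S : Finset (ℝ × ℝ)) {k : ℕ} (hk : k < #S) :
    ∃ f : ℝ → ℝ, Continuous f ∧ ∀ σ, #{p ∈ S | hh σ p < f σ} ≤ k ∧
      k < #{p ∈ S | hh σ p ≤ f σ} := by
  classical
  set F := S.powersetCard (k + 1) with hF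
  have hFne : F.Nonempty := by
    rw [hF, powersetCard_nonempty]
    omega
  have hne : ∀ T ∈ F, T.Nonempty := by
    intro T hT
    rw [hF, mem_powersetCard] at hT
    rw [← card_pos]
    omega
  set g : Finset (ℝ × ℝ) → ℝ → ℝ := fun T σ => if h : T.Nonempty then T.sup' h (hh σ) else 0 with hg
  have hcont : ∀ T, Continuous (g T) := by
    intro T
    by_cases h : T.Nonempty
    · have : g T = fun σ => T.sup' h (fun p => hh σ p) := by
        funext σ
        simp only [hg, dif_pos h]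
      rw [this]
      apply Continuous.finset_sup'_apply
      intro p _
      unfold hh
      fun_prop
    · have : g T = fun _ => 0 := by
        funext σ
        simp only [hg, dif_neg h]
      rw [this]
      exact continuous_const
  refine ⟨fun σ => F.inf' hFne (fun T => g T σ), ?_, ?_⟩
  · apply Continuous.finset_inf'_apply
    intro T _
    exact hcont T
  · intro σ
    obtain ⟨T, hT, hTe⟩ := F.exists_mem_eq_inf' hFne (fun T => g T σ)
    constructor
    · by_contra hcon
      push Not at hcon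
      obtain ⟨T', hT', hc'⟩ := exists_subset_card_eq (Nat.succ_le_of_lt hcon)
      have hT'F : T' ∈ F := by
        rw [hF, mem_powersetCard]
        exact ⟨hT'.trans (filter_subset _ _), hc'⟩
      have h1 := F.inf'_le (fun T => g T σ) hT'F
      have hne' := hne T' hT'F
      have h2 : g T' σ < F.inf' hFne (fun T => g T σ) := by
        have e : g T' σ = T'.sup' hne' (hh σ) := by simp only [hg, dif_pos hne']
        rw [e, sup'_lt_iff]
        intro p hp
        exact (mem_filter.mp (hT' hp)).2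
      exact absurd h1 (not_le.mpr h2)
    · have hTF := hT
      rw [hF, mem_powersetCard] at hT
      have hne' := hne T hTF
      have hsub : T ⊆ S.filter (fun p => hh σ p ≤ F.inf' hFne (fun T => g T σ)) := by
        intro p hp
        rw [mem_filter]
        refine ⟨hT.1 hp, ?_⟩
        rw [hTe]
        have e : g T σ = T.sup' hne' (hh σ) := by simp only [hg, dif_pos hne']
        rw [e]
        exact le_sup' (hh σ) hp
      have := card_le_card hsub
      beta_reduce
      omega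

theorem sep_pos {L R : Finset (ℝ × ℝ)} (h : ∀ p ∈ L, ∀ q ∈ R, p.1 < q.1) :
    ∃ σ : ℝ, ∀ p ∈ L, ∀ q ∈ R, hh σ q < hh σ p := by
  classical
  have h1 : ∀ z ∈ L ×ˢ R, ∀ᶠ σ : ℝ in Filter.atTop, hh σ z.2 < hh σ z.1 := by
    intro z hz
    rw [mem_product] at hz
    have h2 := h z.1 hz.1 z.2 hz.2
    filter_upwards [Filter.eventually_gt_atTop ((z.2.2 - z.1.2) / (z.2.1 - z.1.1))] with σ hσ
    rw [div_lt_iff₀ (by linarith)] at hσ
    unfold hh
    linarith
  have h2 := (Finset.eventually_all (L ×ˢ R)).mpr h1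
  obtain ⟨σ, hσ⟩ := h2.exists
  exact ⟨σ, fun p hp q hq => hσ (p, q) (mem_product.mpr ⟨hp, hq⟩)⟩

theorem sep_neg {L R : Finset (ℝ × ℝ)} (h : ∀ p ∈ L, ∀ q ∈ R, p.1 < q.1) :
    ∃ σ : ℝ, ∀ p ∈ L, ∀ q ∈ R, hh σ p < hh σ q := by
  classical
  have h1 : ∀ z ∈ L ×ˢ R, ∀ᶠ σ : ℝ in Filter.atBot, hh σ z.1 < hh σ z.2 := by
    intro z hz
    rw [mem_product] at hz
    have h2 := h z.1 hz.1 z.2 hz.2
    filter_upwards [Filter.eventually_lt_atBot ((z.2.2 - z.1.2) / (z.2.1 - z.1.1))] with σ hσ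
    rw [lt_div_iff₀ (by linarith)] at hσ
    unfold hh
    linarith
  have h2 := (Finset.eventually_all (L ×ˢ R)).mpr h1
  obtain ⟨σ, hσ⟩ := h2.exists
  exact ⟨σ, fun p hp q hq => hσ (p, q) (mem_product.mpr ⟨hp, hq⟩)⟩

/-- values of an order statistic -/
theorem stat_between {S : Finset (ℝ × ℝ)} {k : ℕ} (hk : k < #S) {σ c : ℝ}
    (h1 : #{p ∈ S | hh σ p < c} ≤ k) (h2 : k < #{p ∈ S | hh σ p ≤ c}) :
    (∃ p ∈ S, hh σ p ≤ c) ∧ ∃ p ∈ S, c ≤ hh σ p := by
  classical
  constructor
  · have : (S.filter (fun p => hh σ p ≤ c)).Nonempty := by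
      rw [← card_pos]; omega
    obtain ⟨p, hp⟩ := this
    rw [mem_filter] at hp
    exact ⟨p, hp.1, hp.2⟩
  · by_contra hcon
    push Not at hcon
    have : S.filter (fun p => hh σ p < c) = S := by
      rw [filter_eq_self]
      exact hcon
    rw [this] at h1
    omega

/-- a common halving line of two sets separated by a vertical line -/
theorem ham {L R : Finset (ℝ × ℝ)} (h : ∀ p ∈ L, ∀ q ∈ R, p.1 < q.1) {k k' : ℕ} (hk : k < #L)
    (hk' : k' < #R) : ∃ σ c : ℝ, (#{p ∈ L | hh σ p < c} ≤ k ∧ k < #{p ∈ L | hh σ p ≤ c}) ∧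
      (#{p ∈ R | hh σ p < c} ≤ k' ∧ k' < #{p ∈ R | hh σ p ≤ c}) := by
  obtain ⟨f, hf, hf'⟩ := exists_stat_cont L hk
  obtain ⟨g, hg, hg'⟩ := exists_stat_cont R hk'
  obtain ⟨s, hs⟩ := sep_pos h
  obtain ⟨t, ht⟩ := sep_neg h
  have h1 : g s ≤ f s := by
    obtain ⟨⟨p, hp, hp'⟩, -⟩ := stat_between hk (hf' s).1 (hf' s).2
    obtain ⟨-, ⟨q, hq, hq'⟩⟩ := stat_between hk' (hg' s).1 (hg' s).2
    have := hs p hp q hq
    linarith
  have h2 : f t ≤ g t := by
    obtain ⟨-, ⟨p, hp, hp'⟩⟩ := stat_between hk (hf' t).1 (hf' t).2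
    obtain ⟨⟨q, hq, hq'⟩, -⟩ := stat_between hk' (hg' t).1 (hg' t).2
    have := ht p hp q hq
    linarith
  obtain ⟨σ, hσ⟩ := mem_range_of_exists_le_of_exists_ge (c := 0) (hf.sub hg)
    ⟨t, by simp only [Pi.sub_apply]; linarith⟩ ⟨s, by simp only [Pi.sub_apply]; linarith⟩
  have hσ' : f σ = g σ := by simp only [Pi.sub_apply] at hσ; linarith
  refine ⟨σ, f σ, hf' σ, ?_⟩
  rw [hσ']
  exact hg' σ

/-- at most two points on a line -/
theorem on_line (hQ : GP Q) (σ c : ℝ) : #{p ∈ Q | hh σ p = c} ≤ 2 := by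
  classical
  by_contra hcon
  push Not at hcon
  obtain ⟨p, hp, q, hq, r, hr, hpq, hpr, hqr⟩ := two_lt_card.mp hcon
  rw [mem_filter] at hp hq hr
  have h1 := (hh_eq (hQ.ne1 hp.1 hq.1 hpq) σ).mp (hq.2.trans hp.2.symm)
  have h2 := (hh_eq (hQ.ne1 hp.1 hr.1 hpr) σ).mp (hr.2.trans hp.2.symm)
  exact hQ.col p hp.1 q hq.1 r hr.1 hpq hpr hqr (h1.trans h2.symm)

theorem half_counts (hQ : GP Q) {L : Finset (ℝ × ℝ)} (hL : L ⊆ Q) {k : ℕ} {σ c : ℝ}
    (h1 : #{p ∈ L | hh σ p < c} ≤ k) (h2 : k < #{p ∈ L | hh σ p ≤ c}) :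
    k ≤ #{p ∈ L | hh σ p < c} + 1 ∧ #L ≤ #{p ∈ L | c < hh σ p} + k + 2 := by
  classical
  have e1 : #{p ∈ L | hh σ p ≤ c} = #{p ∈ L | hh σ p < c} + #{p ∈ L | hh σ p = c} := by
    rw [← card_union_of_disjoint]
    · congr 1
      ext p
      simp only [mem_filter, mem_union]
      constructor
      · rintro ⟨h, h'⟩
        rcases h'.lt_or_eq with h' | h'
        · exact Or.inl ⟨h, h'⟩
        · exact Or.inr ⟨h, h'⟩
      · rintro (⟨h, h'⟩ | ⟨h, h'⟩)
        · exact ⟨h, h'.le⟩
        · exact ⟨h, h'.le⟩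
    · rw [disjoint_left]
      intro p hp hp'
      rw [mem_filter] at hp hp'
      linarith [hp.2, hp'.2]
  have e2 : #{p ∈ L | hh σ p = c} ≤ 2 :=
    (card_le_card (filter_subset_filter _ hL)).trans (on_line hQ σ c)
  have e3 := card_filter_add_card_filter_not (s := L) (fun p => hh σ p ≤ c)
  have e4 : L.filter (fun p => ¬ hh σ p ≤ c) = L.filter (fun p => c < hh σ p) := by
    ext p; simp
  rw [e4] at e3
  constructor <;> omega

/-- **Four groups.** -/
theorem exists_groups (hQ : GP Q) (hn : 4 ≤ #Q) : ∃ G : Fin 4 → Finset (ℝ × ℝ),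
    (∀ i, G i ⊆ Q) ∧ (∀ i j, i ≠ j → Disjoint (G i) (G j)) ∧ (∀ i, #Q ≤ 4 * #(G i) + 14) ∧
    ∀ p q : ℝ × ℝ, p.1 < q.1 → ∃ i, (∀ r ∈ G i, hh (sl p q) r < hh (sl p q) p) ∨
      (∀ r ∈ G i, hh (sl p q) p < hh (sl p q) r) := by
  classical
  -- the vertical line
  obtain ⟨x0, hx1, hx2⟩ : ∃ x0 : ℝ, #Q / 2 ≤ #{p ∈ Q | x0 < p.1} + 1 ∧
      #Q ≤ #{p ∈ Q | p.1 < x0} + #Q / 2 + 1 := by
    obtain ⟨f, -, hf⟩ := exists_stat_cont (Q.image Prod.swap) (k := #Q / 2) (by
      rw [card_image_of_injective _ Prod.swap_injective]; omega)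
    obtain ⟨h1, h2⟩ := hf 0
    have e : ∀ p : ℝ × ℝ, hh 0 p.swap = p.1 := by
      intro p; unfold hh; simp
    rw [filter_image, card_image_of_injective _ Prod.swap_injective] at h1 h2
    simp only [e] at h1 h2
    have e1 : #{p ∈ Q | p.1 ≤ f 0} = #{p ∈ Q | p.1 < f 0} + #{p ∈ Q | p.1 = f 0} := by
      rw [← card_union_of_disjoint]
      · congr 1
        ext p
        simp only [mem_filter, mem_union]
        constructor
        · rintro ⟨h, h'⟩
          rcases h'.lt_or_eq with h' | h'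
          · exact Or.inl ⟨h, h'⟩
          · exact Or.inr ⟨h, h'⟩
        · rintro (⟨h, h'⟩ | ⟨h, h'⟩)
          · exact ⟨h, h'.le⟩
          · exact ⟨h, h'.le⟩
      · rw [disjoint_left]
        intro p hp hp'
        rw [mem_filter] at hp hp'
        linarith [hp.2, hp'.2]
    have e2 : #{p ∈ Q | p.1 = f 0} ≤ 1 := by
      rw [card_le_one]
      intro p hp q hq
      rw [mem_filter] at hp hq
      exact hQ.inj p hp.1 q hq.1 (hp.2.trans hq.2.symm)
    have e3 := card_filter_add_card_filter_not (s := Q) (fun p => p.1 ≤ f 0)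
    have e4 : Q.filter (fun p => ¬ p.1 ≤ f 0) = Q.filter (fun p => f 0 < p.1) := by
      ext p; simp
    rw [e4] at e3
    refine ⟨f 0, ?_, ?_⟩ <;> omega
  set L := Q.filter (fun p => p.1 < x0) with hL
  set R := Q.filter (fun p => x0 < p.1) with hR
  have hLQ : L ⊆ Q := filter_subset _ _
  have hRQ : R ⊆ Q := filter_subset _ _
  have hLR : ∀ p ∈ L, ∀ q ∈ R, p.1 < q.1 := by
    intro p hp q hq
    rw [hL, mem_filter] at hp
    rw [hR, mem_filter] at hq
    linarith [hp.2, hq.2]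
  obtain ⟨σ, c, ⟨h1, h2⟩, ⟨h3, h4⟩⟩ := ham hLR (k := #L / 2) (k' := #R / 2) (by omega) (by omega)
  obtain ⟨a1, a2⟩ := half_counts hQ hLQ h1 h2
  obtain ⟨a3, a4⟩ := half_counts hQ hRQ h3 h4
  refine ⟨![L.filter (fun p => hh σ p < c), L.filter (fun p => c < hh σ p),
    R.filter (fun p => hh σ p < c), R.filter (fun p => c < hh σ p)], ?_, ?_, ?_, ?_⟩
  · intro i
    fin_cases i
    · exact (filter_subset _ _).trans hLQ
    · exact (filter_subset _ _).trans hLQ
    · exact (filter_subset _ _).trans hRQ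
    · exact (filter_subset _ _).trans hRQ
  · have hdLR : Disjoint L R := by
      rw [disjoint_left]
      intro p hp hq
      exact lt_irrefl _ (hLR p hp p hq)
    have hd : ∀ S : Finset (ℝ × ℝ), Disjoint (S.filter (fun p => hh σ p < c))
        (S.filter (fun p => c < hh σ p)) := by
      intro S
      rw [disjoint_left]
      intro p hp hq
      rw [mem_filter] at hp hq
      linarith [hp.2, hq.2]
    intro i j hij
    fin_cases i <;> fin_cases j <;> first
      | exact absurd rfl hij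
      | exact hd _
      | exact (hd _).symm
      | exact disjoint_of_subset_left (filter_subset _ _)
          (disjoint_of_subset_right (filter_subset _ _) hdLR)
      | exact disjoint_of_subset_left (filter_subset _ _)
          (disjoint_of_subset_right (filter_subset _ _) hdLR.symm)
  · intro i
    fin_cases i
    · change #Q ≤ 4 * #{p ∈ L | hh σ p < c} + 14
      omega
    · change #Q ≤ 4 * #{p ∈ L | c < hh σ p} + 14
      omega
    · change #Q ≤ 4 * #{p ∈ R | hh σ p < c} + 14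
      omega
    · change #Q ≤ 4 * #{p ∈ R | c < hh σ p} + 14
      omega
  · intro p q hpq
    set u := sl p q with hu
    set v := hh u p with hv
    rcases le_total 0 ((u - σ) * x0 + (v - c)) with hd | hd <;>
      rcases le_total 0 (u - σ) with hs | hs
    · -- the line is above on the right: the lower right group is below
      refine ⟨2, Or.inl ?_⟩
      intro r hr
      change r ∈ R.filter (fun p => hh σ p < c) at hr
      rw [mem_filter, hR, mem_filter] at hr
      obtain ⟨⟨-, hr1⟩, hr2⟩ := hr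
      unfold hh at hr2 ⊢
      nlinarith [mul_nonneg hs (by linarith : (0:ℝ) ≤ r.1 - x0)]
    · refine ⟨0, Or.inl ?_⟩
      intro r hr
      change r ∈ L.filter (fun p => hh σ p < c) at hr
      rw [mem_filter, hL, mem_filter] at hr
      obtain ⟨⟨-, hr1⟩, hr2⟩ := hr
      unfold hh at hr2 ⊢
      nlinarith [mul_nonneg (by linarith : (0:ℝ) ≤ σ - u) (by linarith : (0:ℝ) ≤ x0 - r.1)]
    · refine ⟨1, Or.inr ?_⟩
      intro r hr
      change r ∈ L.filter (fun p => c < hh σ p) at hr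
      rw [mem_filter, hL, mem_filter] at hr
      obtain ⟨⟨-, hr1⟩, hr2⟩ := hr
      unfold hh at hr2 ⊢
      nlinarith [mul_nonneg hs (by linarith : (0:ℝ) ≤ x0 - r.1)]
    · refine ⟨3, Or.inr ?_⟩
      intro r hr
      change r ∈ R.filter (fun p => c < hh σ p) at hr
      rw [mem_filter, hR, mem_filter] at hr
      obtain ⟨⟨-, hr1⟩, hr2⟩ := hr
      unfold hh at hr2 ⊢
      nlinarith [mul_nonneg (by linarith : (0:ℝ) ≤ σ - u) (by linarith : (0:ℝ) ≤ r.1 - x0)]

end Pool.Agent.V11162.DH
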