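import Pool.Agent.V11162.Halv
import Pool.Agent.Results.MP_a08d0a_co.SmoothedLevel

/-!
# Smoothed analysis of a single level: random slopes

`n` lines `y = a l * x + B l` with arbitrary distinct intercepts and independent random slopes.
`Simple`, `crossings`, `level` and `psi` (the number of vertices of a level) are defined in
`Pool/Agent/Results/MP_a08d0a_co/SmoothedLevel.lean`.
-/

set_option autoImplicit false

namespace Pool.Agent.V11162.DH.SmoothedSlopesLib

open Finset MeasureTheory Filter Pool.Agent.H189R2.Lev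
open Pool.Agent.Results.MP_a08d0a_co.SmoothedLevel (Simple crossings level psi psi_le ae_simple
  null_coord)
open Pool.Agent.V11162.Halv (Pairs pairs_le pairs_empty)
open scoped ENNReal Topology

variable {n : ℕ}

/-- the height difference at a crossing as a determinant -/
theorem ht_sub {a B : Fin n → ℝ} {i j : Fin n} (h : a i ≠ a j) (l : Fin n) :
    (a j - a i) * (ht a B l (cr a B i j) - ht a B i (cr a B i j)) =
      (a j - a i) * (B l - B i) - (B j - B i) * (a l - a i) := by
  have h0 : a i - a j ≠ 0 := sub_ne_zero.2 h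
  unfold ht cr
  field_simp
  ring

/-- exchanging slopes and intercepts -/
theorem crossings_sub_pairs {a B : Fin n → ℝ} (hB : Function.Injective B) (k : ℕ) :
    crossings a B k ⊆ Pairs B a k := by
  rintro ⟨i, j⟩ ⟨h1, h2, h3⟩
  simp only at h1 h2 h3
  have hBij : B i ≠ B j := fun h => h1.ne (hB h)
  refine ⟨h1, hBij, ?_⟩
  change {l | ht B a l (cr B a i j) < ht B a i (cr B a i j)}.ncard = k ∨
    {l | ht B a i (cr B a i j) < ht B a l (cr B a i j)}.ncard = k
  have e1 := fun l => ht_sub (B := B) h2 l
  have e2 := fun l => ht_sub (a := B) (B := a) hBij l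
  have ha0 : a j - a i ≠ 0 := sub_ne_zero.2 (Ne.symm h2)
  have hB0 : B j - B i ≠ 0 := sub_ne_zero.2 (Ne.symm hBij)
  have key : ∀ l, (a j - a i) * (ht a B l (cr a B i j) - ht a B i (cr a B i j)) =
      -((B j - B i) * (ht B a l (cr B a i j) - ht B a i (cr B a i j))) := by
    intro l
    rw [e1 l, e2 l]
    ring
  rcases lt_or_gt_of_ne ha0 with ha | ha <;> rcases lt_or_gt_of_ne hB0 with hb | hb
  · right
    rw [← h3]
    congr 1
    ext l
    have := key l
    constructor
    · intro h
      simp only [Set.mem_ofPred_eq] at h ⊢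
      by_contra hcon
      push Not at hcon
      nlinarith
    · intro h
      simp only [Set.mem_ofPred_eq] at h ⊢
      by_contra hcon
      push Not at hcon
      nlinarith
  · left
    rw [← h3]
    congr 1
    ext l
    have := key l
    constructor
    · intro h
      simp only [Set.mem_ofPred_eq] at h ⊢
      by_contra hcon
      push Not at hcon
      nlinarith
    · intro h
      simp only [Set.mem_ofPred_eq] at h ⊢
      by_contra hcon
      push Not at hcon
      nlinarith
  · left
    rw [← h3]
    congr 1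
    ext l
    have := key l
    constructor
    · intro h
      simp only [Set.mem_ofPred_eq] at h ⊢
      by_contra hcon
      push Not at hcon
      nlinarith
    · intro h
      simp only [Set.mem_ofPred_eq] at h ⊢
      by_contra hcon
      push Not at hcon
      nlinarith
  · right
    rw [← h3]
    congr 1
    ext l
    have := key l
    constructor
    · intro h
      simp only [Set.mem_ofPred_eq] at h ⊢
      by_contra hcon
      push Not at hcon
      nlinarith
    · intro h
      simp only [Set.mem_ofPred_eq] at h ⊢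
      by_contra hcon
      push Not at hcon
      nlinarith

/-- simplicity after the exchange of slopes and intercepts -/
theorem simple_swap {a B : Fin n → ℝ} (ha : Function.Injective a) (hB : Function.Injective B)
    (hS : Simple B a) : Simple a B := by
  refine ⟨fun i j hij h => absurd (ha h) hij, ?_⟩
  rintro i j l hij hil hjl ⟨x, h1, h2⟩
  have hx : x ≠ 0 := by
    rintro rfl
    unfold ht at h1
    simp only [mul_zero, zero_add] at h1
    exact hij (hB h1)
  refine hS.2 i j l hij hil hjl ⟨x⁻¹, ?_, ?_⟩
  · unfold ht at h1 ⊢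
    field_simp
    linarith
  · unfold ht at h2 ⊢
    field_simp
    linarith

section

variable {ν : Fin n → Measure ℝ} [∀ i, IsProbabilityMeasure (ν i)] {D M : ℝ}

theorem inj_ae (hν : ∀ i, ∀ s t : ℝ, s ≤ t → ν i (Set.Icc s t) ≤ ENNReal.ofReal (D * (t - s))) :
    ∀ᵐ a ∂Measure.pi ν, Function.Injective a := by
  have h1 : ∀ᵐ B ∂Measure.pi ν, ∀ i j, i ≠ j → B i ≠ B j := by
    rw [ae_all_iff]; intro i
    rw [ae_all_iff]; intro j
    by_cases hij : i = j
    · exact Eventually.of_forall (fun _ h => absurd hij h)
    · filter_upwards [null_coord hν i (fun B => B j) (measurable_pi_apply j)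
        (fun B b => Function.update_of_ne (Ne.symm hij) _ _)] with B hB _
      exact hB
  filter_upwards [h1] with a ha i j h
  by_contra hij
  exact ha i j hij h

theorem DM_nonneg
    (hν : ∀ i, ∀ s t : ℝ, s ≤ t → ν i (Set.Icc s t) ≤ ENNReal.ofReal (D * (t - s)))
    (hM : ∀ i, ∀ᵐ b ∂ν i, |b| ≤ M) (i : Fin n) : 0 ≤ D * M := by
  have h1 : (∀ᵐ b ∂ν i, b ∈ Set.Icc (-M) M) := by
    filter_upwards [hM i] with b hb
    exact abs_le.mp hb
  have h2 := (prob_compl_eq_zero_iff (μ := ν i) (s := Set.Icc (-M) M) measurableSet_Icc).mp h1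
  have hM0 : -M ≤ M := by
    by_contra hcon
    rw [Set.Icc_eq_empty hcon] at h2
    simp at h2
  have h3 := hν i (-M) M hM0
  rw [h2] at h3
  by_contra hcon
  push Not at hcon
  rw [ENNReal.ofReal_of_nonpos (by nlinarith)] at h3
  exact absurd h3 (by norm_num)

theorem cross_le
    (hν : ∀ i, ∀ s t : ℝ, s ≤ t → ν i (Set.Icc s t) ≤ ENNReal.ofReal (D * (t - s)))
    (hM : ∀ i, ∀ᵐ b ∂ν i, |b| ≤ M) {B : Fin n → ℝ} (hB : Function.Injective B) (k : ℕ) :
    ∫⁻ a, ((crossings a B k).ncard : ℝ≥0∞) ∂Measure.pi ν ≤ ENNReal.ofReal (16 * D * M * n) := by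
  have hS := ae_simple hν B
  have hle : ∫⁻ a, ((crossings a B k).ncard : ℝ≥0∞) ∂Measure.pi ν ≤
      ∫⁻ a, ((Pairs B a k).ncard : ℝ≥0∞) ∂Measure.pi ν := by
    apply lintegral_mono
    intro a
    have := Set.ncard_le_ncard (crossings_sub_pairs (a := a) hB k) (Set.toFinite _)
    beta_reduce
    exact_mod_cast this
  refine hle.trans ?_
  by_cases hk : k + 2 ≤ n
  · have hDM : 0 ≤ D * M := DM_nonneg hν hM ⟨0, by omega⟩
    have h8 := (Pool.Agent.Results.MP_a08d0a_co.SmoothedLevel.result n B ν D M hν hM).2.1
    calc ∫⁻ a, ((Pairs B a k).ncard : ℝ≥0∞) ∂Measure.pi ν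
        ≤ ∫⁻ a, (((crossings B a k).ncard : ℝ≥0∞) +
          ((crossings B a (n - 2 - k)).ncard : ℝ≥0∞)) ∂Measure.pi ν := by
          apply lintegral_mono_ae
          filter_upwards [hS] with a ha
          exact_mod_cast pairs_le ha hk
      _ = _ := lintegral_add_left
          (Pool.Agent.Results.MP_a08d0a_co.SmoothedLevel.measurable_crossings B k) _
      _ ≤ _ := add_le_add (h8 k) (h8 (n - 2 - k))
      _ = _ := by
          have h0 : 0 ≤ 8 * D * M * n := by
            have := mul_nonneg hDM (Nat.cast_nonneg (α := ℝ) n)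
            nlinarith
          rw [← ENNReal.ofReal_add h0 h0]
          congr 1
          ring
  · have : ∀ᵐ a ∂Measure.pi ν, ((Pairs B a k).ncard : ℝ≥0∞) = 0 := by
      filter_upwards [hS] with a ha
      rw [pairs_empty ha (by omega)]
      simp
    rw [lintegral_congr_ae this, lintegral_zero]
    exact zero_le

theorem measurable_crossings (B : Fin n → ℝ) (k : ℕ) :
    Measurable (fun a : Fin n → ℝ => ((crossings a B k).ncard : ℝ≥0∞)) := by
  have hcr : ∀ i j, Measurable (fun a : Fin n → ℝ => cr a B i j) := by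
    intro i j
    unfold cr
    fun_prop
  have hht : ∀ i j l, Measurable (fun a : Fin n → ℝ => ht a B l (cr a B i j)) := by
    intro i j l
    unfold ht
    exact ((measurable_pi_apply l).mul (hcr i j)).add measurable_const
  have h := Pool.Agent.Results.MP_a08d0a_co.SmoothedLevel.measurable_ncard
    (fun (a : Fin n → ℝ) (q : Fin n × Fin n) => q.1 < q.2 ∧
      a q.1 ≠ a q.2 ∧ {l | ht a B l (cr a B q.1 q.2) < ht a B q.1 (cr a B q.1 q.2)}.ncard = k)
    (fun q => (MeasurableSet.const _).inter
      ((measurableSet_eq_fun (measurable_pi_apply q.1) (measurable_pi_apply q.2)).compl.inter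
        ((Pool.Agent.Results.MP_a08d0a_co.SmoothedLevel.measurable_ncard
          (fun (a : Fin n → ℝ) l => ht a B l (cr a B q.1 q.2) < ht a B q.1 (cr a B q.1 q.2))
          (fun l => measurableSet_lt (hht q.1 q.2 l) (hht q.1 q.2 q.1)))
          (measurableSet_singleton k))))
  exact (measurable_of_countable (fun c : ℕ => (c : ℝ≥0∞))).comp h

end

/-- **Smoothed complexity of a level, random slopes.** Let the intercepts `B i` of `n` lines be
distinct and let the slopes be independent random variables with the laws `ν i`, where `ν i` gives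
measure at most `D h` to every interval of length `h` and lives on `[-M, M]`.  Almost surely the
arrangement is simple; for every `k` the expected number of crossings with exactly `k` lines below
is at most `16 D M n`, and for `k < n` the number of vertices of the `k`-level is almost surely
bounded by the number of crossings with exactly `k` or `k - 1` lines below, and its expectation is
at most `32 D M n`. -/
theorem result (n : ℕ) (B : Fin n → ℝ) (hB : Function.Injective B) (ν : Fin n → Measure ℝ)
    [∀ i, IsProbabilityMeasure (ν i)] (D M : ℝ)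
    (hν : ∀ i, ∀ s t : ℝ, s ≤ t → ν i (Set.Icc s t) ≤ ENNReal.ofReal (D * (t - s)))
    (hM : ∀ i, ∀ᵐ b ∂ν i, |b| ≤ M) :
    (∀ᵐ a ∂Measure.pi ν, Function.Injective a ∧ Simple a B) ∧
    (∀ k : ℕ, Measurable (fun a : Fin n → ℝ => ((crossings a B k).ncard : ℝ≥0∞)) ∧
      ∫⁻ a, ((crossings a B k).ncard : ℝ≥0∞) ∂Measure.pi ν ≤ ENNReal.ofReal (16 * D * M * n)) ∧
    (∀ k < n, (∀ᵐ a ∂Measure.pi ν, psi a B k ≤
      ((crossings a B k).ncard + (if k = 0 then 0 else (crossings a B (k - 1)).ncard) : ℕ)) ∧
      ∫⁻ a, (psi a B k : ℝ≥0∞) ∂Measure.pi ν ≤ ENNReal.ofReal (32 * D * M * n)) := by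
  have hS : ∀ᵐ a ∂Measure.pi ν, Function.Injective a ∧ Simple a B := by
    filter_upwards [ae_simple hν B, inj_ae hν] with a h1 h2
    exact ⟨h2, simple_swap h2 hB h1⟩
  refine ⟨hS, fun k => ⟨measurable_crossings B k, cross_le hν hM hB k⟩, ?_⟩
  intro k hk
  have hpsi : ∀ᵐ a ∂Measure.pi ν, psi a B k ≤
      ((crossings a B k).ncard + (if k = 0 then 0 else (crossings a B (k - 1)).ncard) : ℕ) := by
    filter_upwards [hS] with a ha
    exact psi_le ha.2 hk
  refine ⟨hpsi, ?_⟩
  have hDM : 0 ≤ D * M := DM_nonneg hν hM ⟨k, hk⟩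
  calc ∫⁻ a, (psi a B k : ℝ≥0∞) ∂Measure.pi ν
      ≤ ∫⁻ a, (((crossings a B k).ncard : ℝ≥0∞) + ((crossings a B (k - 1)).ncard : ℝ≥0∞))
        ∂Measure.pi ν := by
        apply lintegral_mono_ae
        filter_upwards [hpsi] with a ha
        have h1 : (psi a B k : ℝ≥0∞) ≤ (((crossings a B k).ncard +
          (if k = 0 then 0 else (crossings a B (k - 1)).ncard) : ℕ) : ℕ∞) := by
          exact_mod_cast ha
        refine h1.trans ?_
        rw [ENat.toENNReal_coe]
        split_ifs with h
        · simp
        · push_cast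
          rfl
    _ = _ := lintegral_add_left (measurable_crossings B k) _
    _ ≤ ENNReal.ofReal (16 * D * M * n) + ENNReal.ofReal (16 * D * M * n) :=
        add_le_add (cross_le hν hM hB k) (cross_le hν hM hB (k - 1))
    _ = ENNReal.ofReal (32 * D * M * n) := by
        have : 0 ≤ 16 * D * M * n := by
          have := mul_nonneg hDM (Nat.cast_nonneg (α := ℝ) n)
          nlinarith
        rw [← ENNReal.ofReal_add this this]
        congr 1
        ring

end Pool.Agent.V11162.DH.SmoothedSlopesLib
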