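import Pool.Agent.V11162.DH.Subsets
import Pool.Agent.Y344.KD.Final

/-! The mean complexity of the halving level over all sub-arrangements. -/

set_option autoImplicit false

namespace Pool.Agent.V11162.DH

open Finset
open Pool.Agent.H189R2.Iid (T lev GP)
open Pool.Agent.Y344.KD (bb bb_nonneg bb_sup sum_below EW_all cnt lowSet sub psi_cnt exists_GP
  toNat_le)
open Pool.Agent.Results.MP_a08d0a_co.SmoothedLevel (Simple psi)

variable {n : ℕ}

/-- binomially weighted sum over the pairs -/
theorem binom_sum {P : Fin n → ℝ × ℝ} (hP : GP P) (hpos : 0 < n) (c : ℕ) :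
    ∑ q ∈ T P, ((n + 1).choose (lev P q + c) : ℝ) ≤ 360 * (n : ℝ) ^ (7 / 6 : ℝ) * 2 ^ n := by
  classical
  set w : ℕ → ℝ := fun j => bb (j + c) (n + 1) (1 / 2) with hwdef
  have hw0 : ∀ j, 0 ≤ w j := fun j => bb_nonneg _ _ (by norm_num) (by norm_num)
  have hwe : ∀ j, ((n + 1).choose (j + c) : ℝ) ≤ 2 ^ (n + 1) * w j := by
    intro j
    rcases lt_or_ge (n + 1) (j + c) with h | h
    · rw [Nat.choose_eq_zero_of_lt h, Nat.cast_zero]
      exact mul_nonneg (by positivity) (hw0 j)
    · simp only [hwdef]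
      unfold bb
      have : ((1 : ℝ) - 1 / 2) ^ (j + c) * (1 / 2) ^ (n + 1 - (j + c)) = (1 / 2) ^ (n + 1) := by
        rw [show (1 : ℝ) - 1 / 2 = 1 / 2 by norm_num, ← pow_add]
        congr 1
        omega
      rw [this]
      have h2 : (2 : ℝ) ^ (n + 1) * (1 / 2) ^ (n + 1) = 1 := by
        rw [← mul_pow]; norm_num
      nlinarith [h2, (Nat.cast_nonneg (α := ℝ) ((n + 1).choose (j + c)))]
  have hn1 : (0 : ℝ) < (n : ℝ) + 1 := by positivity
  have hs : 0 < Real.sqrt (1 / 2 * ((n : ℝ) + 1)) := Real.sqrt_pos.mpr (by positivity)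
  set M : ℝ := 4 / Real.sqrt (1 / 2 * ((n : ℝ) + 1)) with hM
  have hM0 : 0 < M := by positivity
  have hwM : ∀ j, w j ≤ M := by
    intro j
    have := bb_sup (k := j + c) (j := n + 1) (r := 1 / 2) (by norm_num) (by norm_num) (by omega)
    push_cast at this
    exact this
  have hwsum : ∑ j ∈ range (n + 1), w j ≤ 2 := by
    have h2 : ∀ j, w j ≤ ((n + 1).choose (j + c) : ℝ) * (1 / 2) ^ (n + 1) := by
      intro j
      simp only [hwdef]
      unfold bb
      rcases lt_or_ge (n + 1) (j + c) with h | h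
      · rw [Nat.choose_eq_zero_of_lt h]
        simp
      · rw [show (1 : ℝ) - 1 / 2 = 1 / 2 by norm_num, ← pow_add,
          show j + c + (n + 1 - (j + c)) = n + 1 by omega]
    have h3 : ∑ j ∈ range (n + 1), (n + 1).choose (j + c) ≤ 2 ^ (n + 1) := by
      rw [← Nat.sum_range_choose (n + 1)]
      calc ∑ j ∈ range (n + 1), (n + 1).choose (j + c)
          ≤ ∑ i ∈ range (c + (n + 1 + 1)), (n + 1).choose i := by
            have e1 : ∑ j ∈ range (n + 1), (n + 1).choose (j + c) =
                ∑ j ∈ range (n + 1), (n + 1).choose (c + j) := by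
              apply sum_congr rfl
              intro j _
              rw [add_comm j c]
            have e2 := sum_range_add (fun i => (n + 1).choose i) c (n + 1)
            rw [e1]
            refine le_trans ?_ (sum_le_sum_of_subset (range_subset_range.mpr
              (by omega : c + (n + 1) ≤ c + (n + 1 + 1))))
            rw [e2]
            exact Nat.le_add_left _ _
        _ = ∑ i ∈ range (n + 1 + 1), (n + 1).choose i := by
            rw [add_comm c (n + 1 + 1), sum_range_add]
            have : ∑ x ∈ range c, (n + 1).choose (n + 1 + 1 + x) = 0 := by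
              apply sum_eq_zero
              intro x _
              exact Nat.choose_eq_zero_of_lt (by omega)
            rw [this, add_zero]
    calc ∑ j ∈ range (n + 1), w j
        ≤ ∑ j ∈ range (n + 1), ((n + 1).choose (j + c) : ℝ) * (1 / 2) ^ (n + 1) :=
          sum_le_sum (fun j _ => h2 j)
      _ = ((∑ j ∈ range (n + 1), (n + 1).choose (j + c) : ℕ) : ℝ) * (1 / 2) ^ (n + 1) := by
          rw [← sum_mul]; push_cast; rfl
      _ ≤ ((2 ^ (n + 1) : ℕ) : ℝ) * (1 / 2) ^ (n + 1) :=
          mul_le_mul_of_nonneg_right (Nat.cast_le.mpr h3) (by positivity)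
      _ = 1 := by
          push_cast
          rw [← mul_pow]; norm_num
      _ ≤ 2 := by norm_num
  have hmain := sum_below hP (w := w) (M := M) (J := n + 1) (by omega) hM0
    (fun j _ => hw0 j) (fun j _ => hwM j) hwsum
  rw [EW_all P (le_refl (n + 1))] at hmain
  -- the final estimate
  have hz : (((n + 1 : ℕ) : ℝ) ^ (1 / 3 : ℝ) * M ^ (1 / 3 : ℝ)) ≤ 2 * (n : ℝ) ^ (1 / 6 : ℝ) := by
    have hnr : (1 : ℝ) ≤ n := by exact_mod_cast hpos
    have e1 : (((n + 1 : ℕ) : ℝ) ^ (1 / 3 : ℝ) * M ^ (1 / 3 : ℝ)) ^ 6 = 32 * ((n : ℝ) + 1) := by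
      have e2 : (((n + 1 : ℕ) : ℝ) ^ (1 / 3 : ℝ)) ^ 6 = ((n : ℝ) + 1) ^ 2 := by
        rw [← Real.rpow_natCast, ← Real.rpow_mul (by positivity), ← Real.rpow_natCast]
        push_cast
        norm_num
      have e3 : (M ^ (1 / 3 : ℝ)) ^ 6 = M ^ 2 := by
        rw [← Real.rpow_natCast, ← Real.rpow_mul hM0.le, ← Real.rpow_natCast]
        norm_num
      have e4 : M ^ 2 = 32 / ((n : ℝ) + 1) := by
        rw [hM, div_pow, Real.sq_sqrt (by positivity)]
        field_simp
        norm_num
      rw [mul_pow, e2, e3, e4]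
      field_simp
    have e5 : (2 * (n : ℝ) ^ (1 / 6 : ℝ)) ^ 6 = 64 * n := by
      rw [mul_pow, ← Real.rpow_natCast ((n : ℝ) ^ (1 / 6 : ℝ)), ← Real.rpow_mul (by positivity)]
      norm_num
    by_contra hcon
    push Not at hcon
    have e6 := pow_lt_pow_left₀ hcon (by positivity) (by norm_num : (6 : ℕ) ≠ 0)
    rw [e1, e5] at e6
    linarith
  have hn76 : (n : ℝ) ^ (7 / 6 : ℝ) = n * (n : ℝ) ^ (1 / 6 : ℝ) := by
    have : (0 : ℝ) < n := by exact_mod_cast hpos
    rw [show (7 / 6 : ℝ) = 1 + 1 / 6 by norm_num, Real.rpow_add this, Real.rpow_one]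
  calc ∑ q ∈ T P, ((n + 1).choose (lev P q + c) : ℝ)
      ≤ ∑ q ∈ T P, 2 ^ (n + 1) * w (lev P q) := sum_le_sum (fun e _ => hwe _)
    _ = 2 ^ (n + 1) * ∑ q ∈ T P, w (lev P q) := by rw [mul_sum]
    _ ≤ 2 ^ (n + 1) * (90 * n * (((n + 1 : ℕ) : ℝ) ^ (1 / 3 : ℝ) * M ^ (1 / 3 : ℝ))) :=
        mul_le_mul_of_nonneg_left hmain (by positivity)
    _ ≤ 2 ^ (n + 1) * (90 * n * (2 * (n : ℝ) ^ (1 / 6 : ℝ))) := by
        apply mul_le_mul_of_nonneg_left _ (by positivity)
        exact mul_le_mul_of_nonneg_left hz (by positivity)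
    _ = 360 * (n : ℝ) ^ (7 / 6 : ℝ) * 2 ^ n := by rw [hn76, pow_succ]; ring

/-- the sets `R` that contain a given number of elements of a set `U` -/
theorem count_sets (U : Finset (Fin n)) (c : ℕ) :
    #{R : Finset (Fin n) | #(U ∩ R) + c = #R / 2} ≤ (n + 1).choose (#U + (2 * c + 1)) := by
  classical
  have hsucc : (n + 1).choose (#U + (2 * c + 1)) =
      #((univ : Finset (Fin n)).powersetCard (#U + 2 * c)) +
        #((univ : Finset (Fin n)).powersetCard (#U + 2 * c + 1)) := by
    rw [card_powersetCard, card_powersetCard, card_univ, Fintype.card_fin,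
      show #U + (2 * c + 1) = #U + 2 * c + 1 by ring, Nat.choose_succ_succ]
  rw [hsucc]
  refine le_trans ?_ (card_union_le _ _)
  refine card_le_card_of_injOn (fun R => symmDiff R U) ?_ ?_
  · intro R hR
    rw [mem_coe, mem_filter] at hR
    have h4 := hR.2
    have h7 : #(symmDiff R U) = #(R \ U) + #(U \ R) := by
      rw [symmDiff_def, sup_eq_union, card_union_of_disjoint]
      exact disjoint_of_subset_left sdiff_subset disjoint_sdiff
    have h8 := card_sdiff_add_card_inter R U
    have h9 := card_sdiff_add_card_inter U R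
    rw [inter_comm R U] at h8
    rw [mem_coe, mem_union, mem_powersetCard, mem_powersetCard]
    rcases Nat.even_or_odd (#R) with ⟨t, ht⟩ | ⟨t, ht⟩
    · left
      refine ⟨subset_univ _, ?_⟩
      change #(symmDiff R U) = #U + 2 * c
      omega
    · right
      refine ⟨subset_univ _, ?_⟩
      change #(symmDiff R U) = #U + 2 * c + 1
      omega
  · intro S _ S' _ h
    exact symmDiff_left_injective U h

/-- the mean over all sub-arrangements -/
theorem mean_psi {a B : Fin n → ℝ} (hS : Simple a B) :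
    (∀ R : Finset (Fin n), R.Nonempty → psi (sub a R) (sub B R) (#R / 2) ≠ ⊤) ∧
    ∑ R : Finset (Fin n) with R.Nonempty, ((psi (sub a R) (sub B R) (#R / 2)).toNat : ℝ) ≤
      720 * (n : ℝ) ^ (7 / 6 : ℝ) * 2 ^ n := by
  classical
  obtain ⟨P, hP, hP'⟩ := exists_GP hS
  have hkey : ∀ R : Finset (Fin n), R.Nonempty → psi (sub a R) (sub B R) (#R / 2) ≤
      (cnt P (#R / 2) Rᶜ + (if #R / 2 = 0 then 0 else cnt P (#R / 2 - 1) Rᶜ) : ℕ) := by
    intro R hR
    obtain ⟨D, rfl⟩ : ∃ D, R = Dᶜ := ⟨Rᶜ, (compl_compl R).symm⟩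
    rw [compl_compl]
    exact psi_cnt hS hP' D (k := #Dᶜ / 2) (by
      have := card_pos.mpr hR
      omega)
  refine ⟨fun R hR => (toNat_le (hkey R hR)).1, ?_⟩
  rcases Nat.eq_zero_or_pos n with h0 | hpos
  · subst h0
    have : (univ : Finset (Finset (Fin 0))).filter (fun R => R.Nonempty) = ∅ := by
      rw [filter_eq_empty_iff]
      rintro R - ⟨x, -⟩
      exact x.elim0
    rw [this, sum_empty]
    positivity
  have h1 : ∀ R : Finset (Fin n), R.Nonempty →
      (psi (sub a R) (sub B R) (#R / 2)).toNat ≤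
        ∑ q ∈ T P, ((if #(lowSet P q ∩ R) + 0 = #R / 2 then 1 else 0) +
          (if #(lowSet P q ∩ R) + 1 = #R / 2 then 1 else 0)) := by
    intro R hR
    refine (toNat_le (hkey R hR)).2.trans ?_
    rw [sum_add_distrib, ← card_filter, ← card_filter]
    have e : ∀ q, lowSet P q \ Rᶜ = lowSet P q ∩ R := by
      intro q
      rw [sdiff_compl, inf_eq_inter]
    apply Nat.add_le_add
    · unfold cnt
      simp only [e]
      apply card_le_card
      intro q hq
      rw [mem_filter] at hq ⊢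
      exact ⟨hq.1, by omega⟩
    · split_ifs with h
      · exact Nat.zero_le _
      · unfold cnt
        simp only [e]
        apply card_le_card
        intro q hq
        rw [mem_filter] at hq ⊢
        exact ⟨hq.1, by omega⟩
  have h2 : ∑ R : Finset (Fin n) with R.Nonempty, (psi (sub a R) (sub B R) (#R / 2)).toNat ≤
      ∑ q ∈ T P, ((n + 1).choose (lev P q + 1) + (n + 1).choose (lev P q + 3)) := by
    calc ∑ R : Finset (Fin n) with R.Nonempty, (psi (sub a R) (sub B R) (#R / 2)).toNat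
        ≤ ∑ R : Finset (Fin n) with R.Nonempty,
          ∑ q ∈ T P, ((if #(lowSet P q ∩ R) + 0 = #R / 2 then 1 else 0) +
            (if #(lowSet P q ∩ R) + 1 = #R / 2 then 1 else 0)) :=
          sum_le_sum (fun R hR => h1 R (mem_filter.mp hR).2)
      _ ≤ ∑ R : Finset (Fin n),
          ∑ q ∈ T P, ((if #(lowSet P q ∩ R) + 0 = #R / 2 then 1 else 0) +
            (if #(lowSet P q ∩ R) + 1 = #R / 2 then 1 else 0)) :=
          sum_le_sum_of_subset (filter_subset _ _)
      _ = ∑ q ∈ T P, ∑ R : Finset (Fin n),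
          ((if #(lowSet P q ∩ R) + 0 = #R / 2 then 1 else 0) +
            (if #(lowSet P q ∩ R) + 1 = #R / 2 then 1 else 0)) := sum_comm
      _ ≤ _ := by
          apply sum_le_sum
          intro q _
          rw [sum_add_distrib, ← card_filter, ← card_filter]
          exact Nat.add_le_add (count_sets (lowSet P q) 0) (count_sets (lowSet P q) 1)
  have h3 := binom_sum hP hpos 1
  have h4 := binom_sum hP hpos 3
  have h5 : ((∑ R : Finset (Fin n) with R.Nonempty,
      (psi (sub a R) (sub B R) (#R / 2)).toNat : ℕ) : ℝ) ≤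
      ((∑ q ∈ T P, ((n + 1).choose (lev P q + 1) + (n + 1).choose (lev P q + 3)) : ℕ) : ℝ) :=
    Nat.cast_le.mpr h2
  rw [Nat.cast_sum] at h5
  refine h5.trans ?_
  push_cast
  rw [sum_add_distrib]
  linarith

end Pool.Agent.V11162.DH
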