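import Pool.Agent.V11162.DH.Window
import Pool.Agent.Y344.KD.Sum
import Pool.Agent.Y344.KD.Prob

/-! The mean number of halving pairs over all subsets of a point set. -/

set_option autoImplicit false

namespace Pool.Agent.V11162.DH

open Finset Pool.Agent.TH124.KE

variable {Q : Finset (ℝ × ℝ)}

open scoped Classical in
/-- the pairs of points -/
noncomputable def prs (Q : Finset (ℝ × ℝ)) : Finset Seg :=
  (Q ×ˢ Q).filter (fun e => e.1.1 < e.2.1)

section

open Pool.Agent.H189R2.Lev (ht cr)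
open Pool.Agent.H189R2.Iid (T mem_T lev low)
open Pool.Agent.Y344.KD (EW window exists_GP)
open Pool.Agent.Results.MP_a08d0a_co.SmoothedLevel (Simple)

/-- perturbation to a set without parallel lines -/
theorem exists_P (hQ : GP Q) : ∃ P : Fin #Q → ℝ × ℝ, Pool.Agent.H189R2.Iid.GP P ∧
    ∀ w : ℕ → ℝ, (∀ j, 0 ≤ w j) →
      ∑ e ∈ prs Q, w (bel Q (sl e.1 e.2) e.1) ≤ ∑ q ∈ T P, w (lev P q) := by
  classical
  let φ : Q ≃ Fin #Q := Q.equivFin
  set pt : Fin #Q → ℝ × ℝ := fun l => (φ.symm l : ℝ × ℝ) with hpt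
  have hptQ : ∀ l, pt l ∈ Q := fun l => (φ.symm l).2
  have hinj : Function.Injective pt := by
    intro i j h
    exact φ.symm.injective (Subtype.ext h)
  have hsurj : ∀ p ∈ Q, ∃ l, pt l = p := by
    intro p hp
    exact ⟨φ ⟨p, hp⟩, by simp [hpt]⟩
  set a : Fin #Q → ℝ := fun l => (pt l).1 with ha
  set B : Fin #Q → ℝ := fun l => (pt l).2 with hB
  have hainj : Function.Injective a := fun i j h => hinj (hQ.inj _ (hptQ i) _ (hptQ j) h)
  have hht : ∀ l σ, ht a B l (-σ) = hh σ (pt l) := by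
    intro l σ
    unfold ht hh
    simp only [ha, hB]
    ring
  have hcr : ∀ i j, cr a B i j = - sl (pt i) (pt j) := by
    intro i j
    unfold cr sl
    rw [← div_neg, neg_sub]
  have hS : Simple a B := by
    refine ⟨fun i j hij h => absurd (hainj h) hij, ?_⟩
    rintro i j l hij hil hjl ⟨x, h1, h2⟩
    have hx : x = - -x := (neg_neg x).symm
    rw [hx, hht, hht] at h1 h2
    have e1 := (hh_eq (hQ.ne1 (hptQ i) (hptQ j) (hinj.ne hij)) (-x)).mp h1.symm
    have e2 := (hh_eq (hQ.ne1 (hptQ i) (hptQ l) (hinj.ne hil)) (-x)).mp h2.symm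
    exact hQ.col _ (hptQ i) _ (hptQ j) _ (hptQ l) (hinj.ne hij) (hinj.ne hil) (hinj.ne hjl)
      (e1.trans e2.symm)
  obtain ⟨P, hP, hP'⟩ := exists_GP hS
  refine ⟨P, hP, ?_⟩
  intro w hw
  set g : Fin #Q × Fin #Q → Seg := fun z => (pt z.2, pt z.1) with hg
  have hginj : Function.Injective g := by
    intro z z' h
    simp only [hg, Prod.mk.injEq] at h
    exact Prod.ext (hinj h.2) (hinj h.1)
  have himg : Q = univ.image pt := by
    ext p
    rw [mem_image]
    constructor
    · intro hp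
      obtain ⟨l, hl⟩ := hsurj p hp
      exact ⟨l, mem_univ _, hl⟩
    · rintro ⟨l, -, rfl⟩
      exact hptQ l
  have hprs : prs Q = ((univ : Finset (Fin #Q × Fin #Q)).filter
      (fun z => a z.2 < a z.1)).image g := by
    unfold prs
    ext e
    rw [mem_filter, mem_product, mem_image]
    constructor
    · rintro ⟨⟨h1, h2⟩, h3⟩
      obtain ⟨j, hj⟩ := hsurj _ h1
      obtain ⟨i, hi⟩ := hsurj _ h2
      refine ⟨(i, j), ?_, Prod.ext hj hi⟩
      rw [mem_filter]
      refine ⟨mem_univ _, ?_⟩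
      change (pt j).1 < (pt i).1
      rw [hj, hi]
      exact h3
    · rintro ⟨z, hz, rfl⟩
      rw [mem_filter] at hz
      exact ⟨⟨hptQ _, hptQ _⟩, hz.2⟩
  have hlev : ∀ z : Fin #Q × Fin #Q, a z.2 < a z.1 →
      bel Q (sl (g z).1 (g z).2) (g z).1 = lev P z := by
    rintro ⟨i, j⟩ hz
    simp only at hz
    obtain ⟨-, h2⟩ := hP' i j hz
    change bel Q (sl (pt j) (pt i)) (pt j) = _
    unfold lev bel
    have e : univ.filter (fun l => P l ∈ low (P i) (P j)) =
        univ.filter (fun l => hh (sl (pt j) (pt i)) (pt l) < hh (sl (pt j) (pt i)) (pt j)) := by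
      ext l
      rw [mem_filter, mem_filter, h2 l, hcr, hht, hht, sl_comm (pt i) (pt j)]
      have e3 : hh (sl (pt j) (pt i)) (pt i) = hh (sl (pt j) (pt i)) (pt j) :=
        hh_sl (ne_of_lt hz)
      rw [e3]
    change _ = (univ.filter (fun l => P l ∈ low (P i) (P j))).card
    rw [e]
    conv_lhs => rw [himg]
    rw [filter_image, card_image_of_injective _ hinj]
  rw [hprs, sum_image (fun z _ z' _ h => hginj h)]
  calc ∑ z ∈ (univ : Finset (Fin #Q × Fin #Q)).filter (fun z => a z.2 < a z.1),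
        w (bel Q (sl (g z).1 (g z).2) (g z).1)
      = ∑ z ∈ (univ : Finset (Fin #Q × Fin #Q)).filter (fun z => a z.2 < a z.1),
        w (lev P z) := by
        apply sum_congr rfl
        intro z hz
        rw [hlev z (mem_filter.mp hz).2]
    _ ≤ ∑ q ∈ T P, w (lev P q) := by
        apply sum_le_sum_of_subset_of_nonneg
        · intro z hz
          rw [mem_T]
          exact (hP' z.1 z.2 (mem_filter.mp hz).2).1
        · intro z _ _
          exact hw _

end

/-- the number of the subsets for which a given pair is halving -/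
theorem count_subsets (e : Seg) :
    #{S ∈ Q.powerset | e ∈ kes S (#S / 2 - 1)} ≤
      (#Q + 1).choose (bel Q (sl e.1 e.2) e.1 + 3) := by
  classical
  set σ := sl e.1 e.2 with hσ
  set Lw := Q.filter (fun r => hh σ r < hh σ e.1) with hLw
  set j := bel Q σ e.1 with hj
  have hLc : #Lw = j := rfl
  have hsucc : (#Q + 1).choose (j + 3) = #(Q.powersetCard (j + 2)) + #(Q.powersetCard (j + 3)) := by
    rw [card_powersetCard, card_powersetCard, Nat.choose_succ_succ]
  rw [hsucc]
  refine le_trans ?_ (card_union_le _ _)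
  refine card_le_card_of_injOn (fun S => symmDiff S Lw) ?_ ?_
  · intro S hS
    rw [mem_coe, mem_filter, mem_powerset, mem_kes] at hS
    obtain ⟨hSQ, h1, h2, h3, h4⟩ := hS
    rw [← hσ] at h4
    have h5 : bel S σ e.1 = #(S ∩ Lw) := by
      unfold bel
      congr 1
      ext r
      rw [mem_filter, mem_inter, hLw, mem_filter]
      exact ⟨fun h => ⟨h.1, hSQ h.1, h.2⟩, fun h => ⟨h.1, h.2.2⟩⟩
    have h6 : 2 ≤ #S := by
      have : #({e.1, e.2} : Finset (ℝ × ℝ)) ≤ #S := card_le_card (by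
        intro x hx
        rw [mem_insert, mem_singleton] at hx
        rcases hx with rfl | rfl
        · exact h1
        · exact h2)
      rw [card_pair (fun h => by rw [h] at h3; exact lt_irrefl _ h3)] at this
      exact this
    have h7 : #(symmDiff S Lw) = #(S \ Lw) + #(Lw \ S) := by
      rw [symmDiff_def, sup_eq_union, card_union_of_disjoint]
      exact disjoint_of_subset_left sdiff_subset disjoint_sdiff
    have h8 := card_sdiff_add_card_inter S Lw
    have h9 := card_sdiff_add_card_inter Lw S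
    rw [inter_comm Lw S] at h9
    have h10 : symmDiff S Lw ⊆ Q := by
      rw [symmDiff_def, sup_eq_union]
      exact union_subset (sdiff_subset.trans hSQ) (sdiff_subset.trans (filter_subset _ _))
    rw [mem_coe, mem_union, mem_powersetCard, mem_powersetCard]
    rw [h5] at h4
    rcases Nat.even_or_odd (#S) with ⟨t, ht⟩ | ⟨t, ht⟩
    · left
      refine ⟨h10, ?_⟩
      change #(symmDiff S Lw) = j + 2
      omega
    · right
      refine ⟨h10, ?_⟩
      change #(symmDiff S Lw) = j + 3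
      omega
  · intro S _ S' _ h
    exact symmDiff_left_injective Lw h

/-- the mean over all subsets -/
theorem mean_kes (hQ : GP Q) : ((∑ S ∈ Q.powerset, #(kes S (#S / 2 - 1)) : ℕ) : ℝ) ≤
    360 * (#Q : ℝ) ^ (7 / 6 : ℝ) * 2 ^ #Q := by
  classical
  rcases Nat.eq_zero_or_pos #Q with h0 | hpos
  · have hQ0 : Q = ∅ := card_eq_zero.mp h0
    subst hQ0
    have : kes (∅ : Finset (ℝ × ℝ)) (#(∅ : Finset (ℝ × ℝ)) / 2 - 1) = ∅ := by
      unfold kes
      simp
    rw [powerset_empty, sum_singleton, this, card_empty, Nat.cast_zero]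
    positivity
  -- exchange the sums
  have h1 : ∑ S ∈ Q.powerset, #(kes S (#S / 2 - 1)) ≤
      ∑ e ∈ prs Q, (#Q + 1).choose (bel Q (sl e.1 e.2) e.1 + 3) := by
    have h2 : ∀ S ∈ Q.powerset, #(kes S (#S / 2 - 1)) =
        ∑ e ∈ prs Q, if e ∈ kes S (#S / 2 - 1) then 1 else 0 := by
      intro S hS
      rw [← card_filter]
      congr 1
      ext e
      rw [mem_filter]
      refine ⟨fun h => ⟨?_, h⟩, fun h => h.2⟩
      have h3 := mem_kes.mp h
      unfold prs
      rw [mem_filter, mem_product]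
      exact ⟨⟨mem_powerset.mp hS h3.1, mem_powerset.mp hS h3.2.1⟩, h3.2.2.1⟩
    rw [sum_congr rfl h2, sum_comm]
    apply sum_le_sum
    intro e he
    rw [← card_filter]
    exact count_subsets e
  set n := #Q with hn
  obtain ⟨P, hP, hw⟩ := exists_P hQ
  set w : ℕ → ℝ := fun j => Pool.Agent.Y344.KD.bb (j + 3) (n + 1) (1 / 2) with hwdef
  have hw0 : ∀ j, 0 ≤ w j := fun j => Pool.Agent.Y344.KD.bb_nonneg _ _ (by norm_num) (by norm_num)
  have hwe : ∀ j, ((n + 1).choose (j + 3) : ℝ) ≤ 2 ^ (n + 1) * w j := by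
    intro j
    rcases lt_or_ge (n + 1) (j + 3) with h | h
    · rw [Nat.choose_eq_zero_of_lt h, Nat.cast_zero]
      exact mul_nonneg (by positivity) (hw0 j)
    · simp only [hwdef]
      unfold Pool.Agent.Y344.KD.bb
      have : ((1 : ℝ) - 1 / 2) ^ (j + 3) * (1 / 2) ^ (n + 1 - (j + 3)) = (1 / 2) ^ (n + 1) := by
        rw [show (1 : ℝ) - 1 / 2 = 1 / 2 by norm_num, ← pow_add]
        congr 1
        omega
      rw [this]
      have h2 : (2 : ℝ) ^ (n + 1) * (1 / 2) ^ (n + 1) = 1 := by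
        rw [← mul_pow]; norm_num
      nlinarith [h2, (Nat.cast_nonneg (α := ℝ) ((n + 1).choose (j + 3)))]
  have hn1 : (0 : ℝ) < (n : ℝ) + 1 := by positivity
  have hs : 0 < Real.sqrt (1 / 2 * ((n : ℝ) + 1)) := Real.sqrt_pos.mpr (by positivity)
  set M : ℝ := 4 / Real.sqrt (1 / 2 * ((n : ℝ) + 1)) with hM
  have hM0 : 0 < M := by positivity
  have hwM : ∀ j, w j ≤ M := by
    intro j
    have := Pool.Agent.Y344.KD.bb_sup (k := j + 3) (j := n + 1) (r := 1 / 2) (by norm_num)
      (by norm_num) (by omega)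
    push_cast at this
    exact this
  have hwsum : ∑ j ∈ range (n + 1), w j ≤ 2 := by
    have h2 : ∀ j, w j ≤ ((n + 1).choose (j + 3) : ℝ) * (1 / 2) ^ (n + 1) := by
      intro j
      simp only [hwdef]
      unfold Pool.Agent.Y344.KD.bb
      rcases lt_or_ge (n + 1) (j + 3) with h | h
      · rw [Nat.choose_eq_zero_of_lt h]
        simp
      · rw [show (1 : ℝ) - 1 / 2 = 1 / 2 by norm_num, ← pow_add,
          show j + 3 + (n + 1 - (j + 3)) = n + 1 by omega]
    have h3 : ∑ j ∈ range (n + 1), (n + 1).choose (j + 3) ≤ 2 ^ (n + 1) := by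
      rw [← Nat.sum_range_choose (n + 1)]
      calc ∑ j ∈ range (n + 1), (n + 1).choose (j + 3)
          ≤ ∑ i ∈ range (n + 1 + 3), (n + 1).choose i := by
            have e1 : ∑ j ∈ range (n + 1), (n + 1).choose (j + 3) =
                ∑ j ∈ range (n + 1), (n + 1).choose (3 + j) := by
              apply sum_congr rfl
              intro j _
              rw [add_comm j 3]
            have e2 := sum_range_add (fun i => (n + 1).choose i) 3 (n + 1)
            rw [show n + 1 + 3 = 3 + (n + 1) by ring, e2, e1]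
            exact Nat.le_add_left _ _
        _ = ∑ i ∈ range (n + 1 + 1), (n + 1).choose i := by
            rw [show n + 1 + 3 = (n + 1 + 1) + 2 by ring, sum_range_add]
            have : ∑ x ∈ range 2, (n + 1).choose (n + 1 + 1 + x) = 0 := by
              apply sum_eq_zero
              intro x _
              exact Nat.choose_eq_zero_of_lt (by omega)
            rw [this, add_zero]
    calc ∑ j ∈ range (n + 1), w j
        ≤ ∑ j ∈ range (n + 1), ((n + 1).choose (j + 3) : ℝ) * (1 / 2) ^ (n + 1) :=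
          sum_le_sum (fun j _ => h2 j)
      _ = ((∑ j ∈ range (n + 1), (n + 1).choose (j + 3) : ℕ) : ℝ) * (1 / 2) ^ (n + 1) := by
          rw [← sum_mul]; push_cast; rfl
      _ ≤ ((2 ^ (n + 1) : ℕ) : ℝ) * (1 / 2) ^ (n + 1) :=
          mul_le_mul_of_nonneg_right (Nat.cast_le.mpr h3) (by positivity)
      _ = 1 := by
          push_cast
          rw [← mul_pow]; norm_num
      _ ≤ 2 := by norm_num
  have hmain := Pool.Agent.Y344.KD.sum_below hP (w := w) (M := M) (J := n + 1) (by omega) hM0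
    (fun j _ => hw0 j) (fun j _ => hwM j) hwsum
  rw [Pool.Agent.Y344.KD.EW_all P (le_refl (n + 1))] at hmain
  -- the final estimate
  have hz : (((n + 1 : ℕ) : ℝ) ^ (1 / 3 : ℝ) * M ^ (1 / 3 : ℝ)) ≤ 2 * (n : ℝ) ^ (1 / 6 : ℝ) := by
    have hnr : (1 : ℝ) ≤ n := by exact_mod_cast hpos
    have e1 : (((n + 1 : ℕ) : ℝ) ^ (1 / 3 : ℝ) * M ^ (1 / 3 : ℝ)) ^ 6 = 32 * ((n : ℝ) + 1) := by
      have e2 : (((n + 1 : ℕ) : ℝ) ^ (1 / 3 : ℝ)) ^ 6 = ((n : ℝ) + 1) ^ 2 := by
        rw [← Real.rpow_natCast, ← Real.rpow_mul (by positivity), ← Real.rpow_natCast]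
        push_cast
        norm_num
      have e3 : (M ^ (1 / 3 : ℝ)) ^ 6 = M ^ 2 := by
        rw [← Real.rpow_natCast, ← Real.rpow_mul hM0.le, ← Real.rpow_natCast]
        norm_num
      have e4 : M ^ 2 = 32 / ((n : ℝ) + 1) := by
        rw [hM, div_pow, Real.sq_sqrt (by positivity)]
        field_simp
        norm_num
      rw [mul_pow, e2, e3, e4]
      field_simp
    have e5 : (2 * (n : ℝ) ^ (1 / 6 : ℝ)) ^ 6 = 64 * n := by
      rw [mul_pow, ← Real.rpow_natCast ((n : ℝ) ^ (1 / 6 : ℝ)), ← Real.rpow_mul (by positivity)]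
      norm_num
    by_contra hcon
    push Not at hcon
    have e6 := pow_lt_pow_left₀ hcon (by positivity) (by norm_num : (6 : ℕ) ≠ 0)
    rw [e1, e5] at e6
    linarith
  have hn76 : (n : ℝ) ^ (7 / 6 : ℝ) = n * (n : ℝ) ^ (1 / 6 : ℝ) := by
    have : (0 : ℝ) < n := by exact_mod_cast hpos
    rw [show (7 / 6 : ℝ) = 1 + 1 / 6 by norm_num, Real.rpow_add this, Real.rpow_one]
  calc ((∑ S ∈ Q.powerset, #(kes S (#S / 2 - 1)) : ℕ) : ℝ)
      ≤ ((∑ e ∈ prs Q, (n + 1).choose (bel Q (sl e.1 e.2) e.1 + 3) : ℕ) : ℝ) :=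
        Nat.cast_le.mpr h1
    _ = ∑ e ∈ prs Q, ((n + 1).choose (bel Q (sl e.1 e.2) e.1 + 3) : ℝ) := by push_cast; rfl
    _ ≤ ∑ e ∈ prs Q, 2 ^ (n + 1) * w (bel Q (sl e.1 e.2) e.1) :=
        sum_le_sum (fun e _ => hwe _)
    _ = 2 ^ (n + 1) * ∑ e ∈ prs Q, w (bel Q (sl e.1 e.2) e.1) := by rw [mul_sum]
    _ ≤ 2 ^ (n + 1) * (90 * n * (((n + 1 : ℕ) : ℝ) ^ (1 / 3 : ℝ) * M ^ (1 / 3 : ℝ))) := by
        apply mul_le_mul_of_nonneg_left _ (by positivity)
        exact (hw w hw0).trans hmain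
    _ ≤ 2 ^ (n + 1) * (90 * n * (2 * (n : ℝ) ^ (1 / 6 : ℝ))) := by
        apply mul_le_mul_of_nonneg_left _ (by positivity)
        exact mul_le_mul_of_nonneg_left hz (by positivity)
    _ = 360 * (n : ℝ) ^ (7 / 6 : ℝ) * 2 ^ n := by rw [hn76, pow_succ]; ring

end Pool.Agent.V11162.DH
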